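import Pool.Agent.Y141.Lay.RootPoint

/-!
Closed points of a variety over a finite field at which a given polynomial has a root (by helper141).
-/

set_option autoImplicit false

namespace Pool.Agent.Y709.Lay

theorem existsRootPoint : ExistsRootPoint := Pool.Agent.Y141.Lay.existsRootPoint

end Pool.Agent.Y709.Lay
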