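import Mathlib.RingTheory.NoetherNormalization
import Mathlib.Algebra.MvPolynomial.Funext
import Mathlib.RingTheory.Jacobson.Ring
import Mathlib.RingTheory.Ideal.GoingUp
import Mathlib.RingTheory.Spectrum.Maximal.Basic
import Mathlib.FieldTheory.PrimitiveElement
import Mathlib.FieldTheory.Finite.Extension
import Mathlib.FieldTheory.IsAlgClosed.AlgebraicClosure
import Mathlib.FieldTheory.Minpoly.Field

/-!
Closed points of large degree on a variety over a finite field.
-/

set_option autoImplicit false
set_option linter.unusedSectionVars false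

open Module

namespace Pool.Agent.Y709.Lay

section elt

variable (k : Type) [Field k] [Finite k]

/-- an algebraic element of a given degree -/
theorem exists_elt (n : ℕ) (hn : 0 < n) :
    ∃ θ : AlgebraicClosure k, (minpoly k θ).natDegree = n := by
  obtain ⟨p, hp⟩ := CharP.exists k
  have hpf : Fact (Nat.Prime p) := ⟨CharP.char_is_prime k p⟩
  have hnz : NeZero n := ⟨hn.ne'⟩
  let E := FiniteField.Extension k p n
  have h1 : finrank k E = n := FiniteField.finrank_extension k p n
  have hfd : FiniteDimensional k E := FiniteDimensional.of_finrank_pos (by rw [h1]; exact hn)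
  obtain ⟨α, hα⟩ := Field.exists_primitive_element k E
  let σ : E →ₐ[k] AlgebraicClosure k := IsAlgClosed.lift
  refine ⟨σ α, ?_⟩
  rw [minpoly.algHom_eq σ σ.injective]
  have h2 := IntermediateField.adjoin.finrank (IsIntegral.of_finite k α)
  rw [← h2, hα]
  exact IntermediateField.finrank_top'.trans h1

/-- there are infinitely many elements whose degree is large and divisible by `e` -/
theorem infinite_elt (e n : ℕ) (he : 0 < e) :
    {θ : AlgebraicClosure k | e ∣ (minpoly k θ).natDegree ∧
      n ≤ (minpoly k θ).natDegree}.Infinite := by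
  have h1 : ∀ j : ℕ, ∃ θ : AlgebraicClosure k, (minpoly k θ).natDegree = e * (n + j + 1) :=
    fun j => exists_elt k _ (Nat.mul_pos he (by omega))
  choose θ hθ using h1
  refine Set.infinite_of_injective_forall_mem (f := θ) ?_ ?_
  · intro i j hij
    have h2 := hθ i
    rw [hij, hθ j] at h2
    have h3 := Nat.eq_of_mul_eq_mul_left he h2
    omega
  · intro j
    refine ⟨?_, ?_⟩
    · rw [hθ]
      exact dvd_mul_right _ _
    · rw [hθ]
      have := Nat.le_mul_of_pos_left (n + j + 1) he
      omega

end elt

section main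

variable (k : Type) [Field k] [Finite k] (A : Type) [CommRing A] [IsDomain A] [Algebra k A]
  [Algebra.FiniteType k A]

/-- **closed points of large degree outside of a hypersurface** -/
theorem exists_point (hA : ¬ Module.Finite k A) {a : A} (ha : a ≠ 0) (e n : ℕ) (he : 0 < e) :
    ∃ c : MaximalSpectrum A, a ∉ c.asIdeal ∧ e ∣ finrank k (A ⧸ c.asIdeal) ∧
      n ≤ finrank k (A ⧸ c.asIdeal) ∧ Module.Finite k (A ⧸ c.asIdeal) := by
  obtain ⟨s, g, hg, hgint⟩ := exists_integral_inj_algHom_of_fg k A
  let B := MvPolynomial (Fin s) k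
  let iBA : Algebra B A := g.toRingHom.toAlgebra
  have htow : IsScalarTower k B A := IsScalarTower.of_algebraMap_eq fun x => (g.commutes x).symm
  have hint : Algebra.IsIntegral B A := ⟨hgint⟩
  have hinj : Function.Injective (algebraMap B A) := hg
  have hfaith : FaithfulSMul B A := (faithfulSMul_iff_algebraMap_injective _ _).2 hinj
  -- the number of variables is positive
  have hs : 0 < s := by
    rcases Nat.eq_zero_or_pos s with h | h
    · exfalso
      apply hA
      subst h
      have h1 : Algebra.IsIntegral k A := by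
        refine ⟨fun x => ?_⟩
        have h2 : (g.toRingHom.comp (algebraMap k B)).IsIntegral := by
          apply RingHom.IsIntegral.trans _ _ _ hgint
          apply RingHom.isIntegral_of_surjective
          exact MvPolynomial.C_surjective (Fin 0)
        have h3 : g.toRingHom.comp (algebraMap k B) = algebraMap k A := by
          refine RingHom.ext fun x => ?_
          exact g.commutes x
        rw [h3] at h2
        exact h2 x
      exact Algebra.IsIntegral.finite
    · exact h
  -- the norm of `a`
  have h1 : (Ideal.span {a}).comap (algebraMap B A) ≠ ⊥ :=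
    Ideal.comap_ne_bot_of_integral_mem ha (Ideal.subset_span rfl) (Algebra.IsIntegral.isIntegral a)
  obtain ⟨b, hb, hb0⟩ := Submodule.exists_mem_ne_zero_of_ne_bot h1
  rw [Ideal.mem_comap, Ideal.mem_span_singleton] at hb
  -- the point of the affine space
  let K := AlgebraicClosure k
  let Θ : Set K := {θ : K | e ∣ (minpoly k θ).natDegree ∧ n ≤ (minpoly k θ).natDegree}
  have hΘ : Θ.Infinite := infinite_elt k e n he
  have hKinf : Infinite K := IsAlgClosed.instInfinite
  let i₀ : Fin s := ⟨0, hs⟩
  have h2 : ∃ P : Fin s → K, P i₀ ∈ Θ ∧ MvPolynomial.aeval P b ≠ 0 := by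
    by_contra hcon
    push Not at hcon
    apply hb0
    have h3 : MvPolynomial.map (algebraMap k K) b = 0 := by
      apply MvPolynomial.funext_set (fun i : Fin s => if i = i₀ then Θ else Set.univ)
      · intro i
        split_ifs
        · exact hΘ
        · exact Set.infinite_univ
      · intro x hx
        have h4 : x i₀ ∈ (if i₀ = i₀ then Θ else Set.univ) := hx i₀ (Set.mem_univ _)
        rw [if_pos rfl] at h4
        have h5 := hcon x h4
        rw [MvPolynomial.aeval_def, ← MvPolynomial.eval_map] at h5
        rw [h5, map_zero]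
    exact (MvPolynomial.map_injective _ (algebraMap k K).injective) (h3.trans (map_zero _).symm)
  obtain ⟨P, hPΘ, hPb⟩ := h2
  let φ : B →ₐ[k] K := MvPolynomial.aeval P
  let 𝔫 : Ideal B := RingHom.ker φ
  have h𝔫p : 𝔫.IsPrime := RingHom.ker_isPrime _
  have h𝔫 : 𝔫.IsMaximal := by
    apply Ideal.Quotient.maximal_of_isField
    have hint' : Algebra.IsIntegral k (B ⧸ 𝔫) := by
      refine ⟨fun x => ?_⟩
      have h3 : Function.Injective (Ideal.kerLiftAlg φ) := Ideal.kerLiftAlg_injective φ
      exact (isIntegral_algHom_iff (Ideal.kerLiftAlg φ) h3).1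
        (Algebra.IsIntegral.isIntegral (R := k) _)
    exact isField_of_isIntegral_of_isField' (R := k) (Field.toIsField k)
  obtain ⟨Q, hQ, hQl⟩ := Ideal.exists_maximal_ideal_liesOver_of_isIntegral (S := A) 𝔫
  have hover : ∀ x : B, algebraMap B A x ∈ Q ↔ φ x = 0 := by
    intro x
    have h3 : x ∈ 𝔫 ↔ algebraMap B A x ∈ Q := by
      rw [hQl.over]
      rfl
    rw [← h3]
    exact RingHom.mem_ker
  letI : Field (A ⧸ Q) := Ideal.Quotient.field Q
  have hft : Algebra.FiniteType k (A ⧸ Q) :=
    Algebra.FiniteType.of_surjective (Ideal.Quotient.mkₐ k Q)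
      (Ideal.Quotient.mkₐ_surjective k Q)
  have hfin : Module.Finite k (A ⧸ Q) := finite_of_finite_type_of_isJacobsonRing k (A ⧸ Q)
  have hmin : (minpoly k (P i₀)) = minpoly k (Ideal.Quotient.mk Q (g (MvPolynomial.X i₀))) := by
    have hint1 : IsIntegral k (P i₀) := Algebra.IsIntegral.isIntegral _
    refine minpoly.eq_of_irreducible_of_monic (minpoly.irreducible hint1) ?_ (minpoly.monic hint1)
    have h3 : Polynomial.aeval (Ideal.Quotient.mk Q (g (MvPolynomial.X i₀)))
        (minpoly k (P i₀)) = Ideal.Quotient.mkₐ k Q (g (Polynomial.aeval (MvPolynomial.X i₀)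
          (minpoly k (P i₀)))) := by
      rw [← Polynomial.aeval_algHom_apply, ← Polynomial.aeval_algHom_apply]
      rfl
    rw [h3]
    show Ideal.Quotient.mk Q _ = 0
    rw [Ideal.Quotient.eq_zero_iff_mem]
    refine (hover _).2 ?_
    rw [← Polynomial.aeval_algHom_apply]
    have h4 : φ (MvPolynomial.X i₀) = P i₀ := MvPolynomial.aeval_X P i₀
    rw [h4, minpoly.aeval]
  have hdvd : (minpoly k (P i₀)).natDegree ∣ finrank k (A ⧸ Q) := by
    rw [hmin]
    exact minpoly.degree_dvd (IsIntegral.of_finite k _)
  refine ⟨⟨Q, hQ⟩, ?_, hPΘ.1.trans hdvd, hPΘ.2.trans (Nat.le_of_dvd Module.finrank_pos hdvd), hfin⟩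
  intro h3
  apply hPb
  refine (hover b).1 ?_
  obtain ⟨c, hc⟩ := hb
  rw [hc]
  exact Q.mul_mem_right c h3

end main

end Pool.Agent.Y709.Lay
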