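import Pool.Agent.Y709.Sp.Spec
import Pool.Agent.Y709.Lay.Closed
import Mathlib.RingTheory.Ideal.Quotient.Operations

/-!
The number of the polynomials with coefficients in a ring whose values at the closed points of a
finite set belong to given sets.
-/

set_option autoImplicit false
set_option linter.unusedSectionVars false

open Polynomial Module

namespace Pool.Agent.Y709.Lay

open Pool.Agent.Y709.Sp

theorem count_prodD {G ι : Type} [AddGroup G] [Finite G] [Fintype ι] (M : ι → Type)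
    [∀ i, AddGroup (M i)] [∀ i, Finite (M i)] (f : G →+ (∀ i, M i)) (hf : Function.Surjective f)
    (S : ∀ i, Set (M i)) (q a : ℕ) (hS : ∀ i, q * Nat.card (S i) ≤ a * Nat.card (M i)) :
    q ^ Fintype.card ι * Nat.card {w : G // ∀ i, f w i ∈ S i} ≤
      a ^ Fintype.card ι * Nat.card G := by
  classical
  have h1 := count_fibre f hf (Set.pi Set.univ S)
  have h2 : Nat.card (∀ i, M i) = ∏ i, Nat.card (M i) := Nat.card_pi
  have h3 : Nat.card {w : G // ∀ i, f w i ∈ S i} = Nat.card {w : G // f w ∈ Set.pi Set.univ S} :=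
    Nat.card_congr (Equiv.subtypeEquivRight fun w => by simp)
  have h4 : Nat.card (Set.pi Set.univ S) = ∏ i, Nat.card (S i) := by
    rw [Nat.card_congr (Equiv.Set.univPi S), Nat.card_pi]
  have h5 : q ^ Fintype.card ι * ∏ i, Nat.card (S i) ≤
      a ^ Fintype.card ι * ∏ i, Nat.card (M i) := by
    have e1 : ∀ (c : ℕ) (g : ι → ℕ), c ^ Fintype.card ι * ∏ i, g i = ∏ i, c * g i := by
      intro c g
      rw [Finset.prod_mul_distrib, Finset.prod_const, Finset.card_univ]
    rw [e1, e1]
    exact Finset.prod_le_prod' fun i _ => hS i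
  have h6 : 0 < ∏ i, Nat.card (M i) := Finset.prod_pos fun i _ => Nat.card_pos
  rw [h4, h2] at h1
  rw [h3]
  apply Nat.le_of_mul_le_mul_right _ h6
  calc q ^ Fintype.card ι * Nat.card {w : G // f w ∈ Set.pi Set.univ S} * ∏ i, Nat.card (M i) =
        Nat.card G * (q ^ Fintype.card ι * ∏ i, Nat.card (S i)) := by
        rw [mul_assoc, h1]
        ring
    _ ≤ Nat.card G * (a ^ Fintype.card ι * ∏ i, Nat.card (M i)) := Nat.mul_le_mul_left _ h5
    _ = _ := by ring

section spec

attribute [local instance] Ideal.Quotient.field MaximalSpectrum.isMaximal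

variable {k : Type} [Field k] [Finite k] {A : Type} [CommRing A] [Algebra k A]

theorem count_specC (H : Submodule k A) [Module.Finite k H] (N : ℕ)
    (T : Finset (MaximalSpectrum A)) (hT : ∀ c ∈ T, Finite (A ⧸ c.asIdeal))
    (hH : ∀ g : ∀ c : MaximalSpectrum A, A ⧸ c.asIdeal, ∃ h ∈ H, ∀ c ∈ T,
      Ideal.Quotient.mk c.asIdeal h = g c)
    (S : ∀ c : MaximalSpectrum A, Set (A ⧸ c.asIdeal)[X]) (q a : ℕ)
    (hS : ∀ c ∈ T, q * {D : (A ⧸ c.asIdeal)[X] | D.natDegree ≤ N ∧ D ∈ S c}.ncard ≤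
      a * Nat.card (A ⧸ c.asIdeal) ^ (N + 1)) :
    q ^ T.card * {D : A[X] | (D.natDegree ≤ N ∧ ∀ j, D.coeff j ∈ H) ∧
        ∀ c ∈ T, D.map (Ideal.Quotient.mk c.asIdeal) ∈ S c}.ncard ≤
      a ^ T.card * {D : A[X] | D.natDegree ≤ N ∧ ∀ j, D.coeff j ∈ H}.ncard := by
  classical
  have hfin := finite_grp H N
  let M : T → Type := fun c => degreeLT (A ⧸ c.1.asIdeal) (N + 1)
  have hTf : ∀ c : T, Finite (A ⧸ c.1.asIdeal) := fun c => hT c.1 c.2
  have hMf : ∀ c : T, Finite (M c) := fun c => by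
    have := hTf c
    exact Finite.of_equiv _ (degreeLTEquiv (A ⧸ c.1.asIdeal) (N + 1)).toEquiv.symm
  let f : grp H N →+ (∀ c : T, M c) :=
    { toFun := fun D c => ⟨D.1.map (Ideal.Quotient.mk c.1.asIdeal),
        mem_degreeLT_of (natDegree_map_le.trans D.2.1)⟩
      map_zero' := by
        funext c
        apply Subtype.ext
        exact Polynomial.map_zero _
      map_add' := fun D E => by
        funext c
        apply Subtype.ext
        exact Polynomial.map_add _ }
  have hf : Function.Surjective f := by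
    intro y
    have h1 : ∀ j : ℕ, ∃ h ∈ H, ∀ c (hc : c ∈ T), Ideal.Quotient.mk c.asIdeal h =
        (y ⟨c, hc⟩ : (A ⧸ c.asIdeal)[X]).coeff j := by
      intro j
      obtain ⟨h, hh, hh'⟩ := hH (fun c => if hc : c ∈ T then
        (y ⟨c, hc⟩ : (A ⧸ c.asIdeal)[X]).coeff j else 0)
      refine ⟨h, hh, fun c hc => ?_⟩
      rw [hh' c hc, dif_pos hc]
    choose u hu hu' using h1
    have hcoef : ∀ j, (∑ i ∈ Finset.range (N + 1), C (u i) * X ^ i : A[X]).coeff j =
        if j ≤ N then u j else 0 := by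
      intro j
      rw [finsetSum_coeff]
      simp only [coeff_C_mul, coeff_X_pow, mul_ite, mul_one, mul_zero]
      rw [Finset.sum_ite_eq]
      simp only [Finset.mem_range, Nat.lt_succ_iff]
    refine ⟨⟨∑ i ∈ Finset.range (N + 1), C (u i) * X ^ i, ?_, ?_⟩, ?_⟩
    · rw [natDegree_le_iff_coeff_eq_zero]
      intro j hj
      rw [hcoef, if_neg (by omega)]
    · intro j
      rw [hcoef]
      split_ifs
      · exact hu j
      · exact H.zero_mem
    · funext c
      apply Subtype.ext
      show (∑ i ∈ Finset.range (N + 1), C (u i) * X ^ i : A[X]).map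
        (Ideal.Quotient.mk c.1.asIdeal) = (y c : (A ⧸ c.1.asIdeal)[X])
      ext j
      rw [coeff_map, hcoef]
      have h3 : (y c : (A ⧸ c.1.asIdeal)[X]).natDegree ≤ N := natDegree_of_mem (y c).2
      split_ifs with hj
      · exact hu' j c.1 c.2
      · rw [map_zero, coeff_eq_zero_of_natDegree_lt (by omega)]
  have h1 := count_prodD M f hf (fun c => {D : M c | (D : (A ⧸ c.1.asIdeal)[X]) ∈ S c.1}) q a
    (fun c => by
      have h2 := hS c.1 c.2
      have h3 : Nat.card (M c) = Nat.card (A ⧸ c.1.asIdeal) ^ (N + 1) := by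
        have := hTf c
        exact card_degreeLT (k := A ⧸ c.1.asIdeal) N
      rw [h3]
      refine le_trans (le_of_eq ?_) h2
      congr 1
      rw [← Nat.card_coe_set_eq]
      exact Nat.card_congr
        { toFun := fun D => ⟨D.1.1, natDegree_of_mem D.1.2, D.2⟩
          invFun := fun D => ⟨⟨D.1, mem_degreeLT_of D.2.1⟩, D.2.2⟩
          left_inv := fun _ => rfl
          right_inv := fun _ => rfl })
  rw [Fintype.card_coe] at h1
  have h2 : Nat.card {w : grp H N // ∀ c : T, f w c ∈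
      {D : M c | (D : (A ⧸ c.1.asIdeal)[X]) ∈ S c.1}} =
      {D : A[X] | (D.natDegree ≤ N ∧ ∀ j, D.coeff j ∈ H) ∧
        ∀ c ∈ T, D.map (Ideal.Quotient.mk c.asIdeal) ∈ S c}.ncard := by
    rw [← Nat.card_coe_set_eq]
    exact Nat.card_congr
      { toFun := fun w => ⟨w.1.1, w.1.2, fun c hc => w.2 ⟨c, hc⟩⟩
        invFun := fun w => ⟨⟨w.1, w.2.1⟩, fun c => w.2.2 c.1 c.2⟩
        left_inv := fun _ => rfl
        right_inv := fun _ => rfl }
  have h3 : Nat.card (grp H N) = {D : A[X] | D.natDegree ≤ N ∧ ∀ j, D.coeff j ∈ H}.ncard := by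
    rw [← Nat.card_coe_set_eq]
    rfl
  rw [h2, h3] at h1
  exact h1

omit [Finite k] in
/-- the values at finitely many closed points are arbitrary on a space of finite dimension -/
theorem exists_sub (T : Finset (MaximalSpectrum A)) (hT : ∀ c ∈ T, Finite (A ⧸ c.asIdeal)) :
    ∃ H₀ : Submodule k A, Module.Finite k H₀ ∧ ∀ H : Submodule k A, H₀ ≤ H →
      ∀ g : ∀ c : MaximalSpectrum A, A ⧸ c.asIdeal, ∃ h ∈ H, ∀ c ∈ T,
        Ideal.Quotient.mk c.asIdeal h = g c := by
  classical
  have hTf : ∀ c : T, Finite (A ⧸ c.1.asIdeal) := fun c => hT c.1 c.2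
  have hcop : Pairwise (Function.onFun IsCoprime fun c : T => c.1.asIdeal) := by
    intro c d hcd
    have h1 : c.1.asIdeal ≠ d.1.asIdeal := fun h => hcd (Subtype.ext (MaximalSpectrum.ext h))
    exact Ideal.isCoprime_of_isMaximal h1
  have h1 : ∀ g : (∀ c : T, A ⧸ c.1.asIdeal), ∃ r : A, ∀ c : T,
      Ideal.Quotient.mk c.1.asIdeal r = g c := by
    intro g
    have h2 : ∀ c : T, ∃ x : A, Ideal.Quotient.mk c.1.asIdeal x = g c := fun c =>
      Ideal.Quotient.mk_surjective (g c)
    choose x hx using h2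
    obtain ⟨r, hr⟩ := Ideal.exists_forall_sub_mem_ideal
      (I := fun c : T => c.1.asIdeal) hcop x
    refine ⟨r, fun c => ?_⟩
    rw [← hx c]
    exact Ideal.Quotient.eq.2 (hr c)
  choose σ hσ using h1
  refine ⟨Submodule.span k (Set.range σ), ?_, ?_⟩
  · exact Module.Finite.span_of_finite k (Set.finite_range σ)
  · intro H hle g
    refine ⟨σ (fun c => g c.1), hle (Submodule.subset_span ⟨_, rfl⟩), fun c hc => ?_⟩
    exact hσ (fun c => g c.1) ⟨c, hc⟩

end spec

end Pool.Agent.Y709.Lay
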