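import Pool.Agent.Y709.Lay.CharN
import Pool.Agent.Y515.CntS.Red
import Mathlib.FieldTheory.Finite.GaloisField

/-!
The number of the twists with a zero over some covering, over an extension of the field with `q`
elements.
-/

set_option autoImplicit false
set_option linter.unusedSectionVars false

open Polynomial Module

namespace Pool.Agent.Y709.Lay

open Pool.Agent.W313.Hyp Pool.Agent.W343.BSD Pool.Agent.Y709 Pool.Agent.Y709.Gen

/-- the subfield of constants -/
theorem exists_const (k : Type) [Field k] [Fintype k] (p f₀ s : ℕ) [hp : Fact p.Prime] [CharP k p]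
    (hf₀ : 0 < f₀) (hk : Fintype.card k = (p ^ f₀) ^ s) : Nonempty (GaloisField p f₀ →+* k) := by
  letI : Algebra (ZMod p) k := ZMod.algebra k p
  have h1 : finrank (ZMod p) k = f₀ * s := by
    have h2 := Module.card_eq_pow_finrank (K := ZMod p) (V := k)
    rw [ZMod.card, hk, ← pow_mul] at h2
    exact (Nat.pow_right_injective hp.out.two_le h2).symm
  have h2 : finrank (ZMod p) (GaloisField p f₀) ∣ finrank (ZMod p) k := by
    rw [h1, GaloisField.finrank p hf₀.ne']
    exact dvd_mul_right _ _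
  obtain ⟨g⟩ := FiniteField.nonempty_algHom_of_finrank_dvd h2
  exact ⟨g.toRingHom⟩

section count

variable {k : Type} [Field k] [Fintype k] {p f₀ q s r : ℕ} [hp : Fact p.Prime] [CharP k p]

/-- **the number of the twists with a zero over some covering** -/
theorem countX (hq : q = p ^ f₀) (hf₀ : 0 < f₀) (hs : 0 < s) (hk : Fintype.card k = q ^ s)
    (B : k[X]) (hB : B ≠ 0) (b : Fin (r + 1) → k[X]) (hbi : Function.Injective b) (d : ℕ)
    (hb : ∀ i, (b i).natDegree ≤ d) (m : Fin (r + 1) → ℕ) (hm : ∀ i, 0 < m i)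
    (hmp : ∑ l, m l < p) (f ρ M N e : ℕ) (he : e ∣ q - 1)
    (hf : B.natDegree + d * ∑ i, m i ≤ f) (hmq : ∑ i, m i < q - 1)
    (h1 : r * f + 3 * r ^ 2 + 6 * r + 8 ≤ q) (h2 : r + 1 ≤ ρ) (h3 : ρ + f ≤ q - 1)
    (h4 : 4 * r ^ 2 + 8 ≤ M) (h5 : N + 1 = (q - 1) * M + ρ) :
    q * {D : k[X] | D.natDegree ≤ N ∧ VanX p (q - 1) e (D * B) b m}.ncard ≤
      2 * r * e * Nat.card k ^ (N + 1) := by
  obtain ⟨φ⟩ := exists_const k p f₀ s hf₀ (by rw [hk, hq])
  let k₀ := GaloisField p f₀
  letI : Algebra k₀ k := φ.toAlgebra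
  have hfin : Finite k₀ := Nat.finite_of_card_ne_zero (by
    rw [GaloisField.card p f₀ hf₀.ne']
    exact pow_ne_zero _ hp.out.ne_zero)
  letI : Fintype k₀ := Fintype.ofFinite k₀
  have hk₀ : Fintype.card k₀ = q := by
    rw [← Nat.card_eq_fintype_card, GaloisField.card p f₀ hf₀.ne', hq]
  have hpos : 1 < q := by omega
  have hcp : CharP k₀ p := φ.charP φ.injective p
  have hinv : ∀ i : ℕ, i < ∑ l, m l → ((i : k₀) + 1) ≠ 0 := by
    intro i hi h
    have h1 : ((i + 1 : ℕ) : k₀) = 0 := by rw [Nat.cast_succ, h]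
    rw [CharP.cast_eq_zero_iff k₀ p] at h1
    have h2 := Nat.le_of_dvd (Nat.succ_pos i) h1
    omega
  have hinv' : ∀ i : ℕ, i < ∑ l, m l → ((i : k) + 1) ≠ 0 := by
    intro i hi h
    have h1 : ((i + 1 : ℕ) : k) = 0 := by rw [Nat.cast_succ, h]
    rw [CharP.cast_eq_zero_iff k p] at h1
    have h2 := Nat.le_of_dvd (Nat.succ_pos i) h1
    omega
  have hmle : ∀ i, m i < q := by
    intro i
    have : m i ≤ ∑ i, m i := Finset.single_le_sum (f := m) (fun _ _ => Nat.zero_le _)
      (Finset.mem_univ i)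
    omega
  have hdet := det_minor (k := k) hq hf₀ hB hbi hm hmle hinv'
  have h6 := Pool.Agent.Y515.cntSL k q s hk p f₀ hq hs (iterateFrobenius k p f₀)
    (fun x => by rw [iterateFrobenius_def, hq]) r (minor B b m) f ρ M N hdet (fun i j => by
      unfold minor
      rw [Matrix.of_apply]
      exact (natDegree_mul_le.trans (Nat.add_le_add_left (natDegree_phi hb hm 0 _ _) _)).trans hf)
    h1 h2 h3 h4 h5
  have h7 := countL_of_bound (k₀ := k₀) (k := k) (p := p) (s := s) hq hf₀ hk₀ hs hk (by omega) B b m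
    hm hmq hinv N e _ he le_rfl
  have h8 : {D : k[X] | D.natDegree ≤ N ∧ VanX p (q - 1) e (D * B) b m}.ncard ≤
      {D : k[X] | D.natDegree ≤ N ∧ VanL k₀ p q s e (D * B) b m}.ncard :=
    Set.ncard_le_ncard (fun D hD => ⟨hD.1, vanL_of_vanX hk₀ hk hD.2⟩)
      ((finite_natDegree_le N).subset fun D hD => hD.1)
  calc q * {D : k[X] | D.natDegree ≤ N ∧ VanX p (q - 1) e (D * B) b m}.ncard ≤
      q * (e * _) := Nat.mul_le_mul_left q (h8.trans h7)
    _ = e * (q * _) := by ring
    _ ≤ e * (2 * r * Nat.card k ^ (N + 1)) := Nat.mul_le_mul_left e h6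
    _ = _ := by ring

end count

end Pool.Agent.Y709.Lay
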