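import Pool.Agent.Y709.Lay.Points
import Mathlib.FieldTheory.Extension
import Mathlib.RingTheory.Ideal.GoingUp

/-!
The points above a point of the line.
-/

set_option autoImplicit false
set_option linter.unusedSectionVars false

open Polynomial Module

namespace Pool.Agent.Y709.Lay

open Pool.Agent.W313.Hyp

section gal

variable {k : Type} [Field k] [Finite k] {O : Type} [CommRing O] [Algebra k[X] O]
  (G : Type) [Group G] [Finite G] [MulSemiringAction G O] [IsGaloisGroup G k[X] O]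

/-- the points above `P` -/
def above (k : Type) [Field k] {O : Type} [CommRing O] [Algebra k[X] O] (P : MI k) :
    Set (MaximalSpectrum O) := {𝔪 | minpoly k (vO k 𝔪 X) = P.1}

omit [Finite k] in
theorem eq_of_span {P Q : MI k} (h : Ideal.span {P.1} = Ideal.span {Q.1}) : P.1 = Q.1 := by
  rw [Ideal.span_singleton_eq_span_singleton] at h
  exact Polynomial.eq_of_monic_of_associated P.2.1 Q.2.1 h

include G in
theorem mem_above {𝔪 : MaximalSpectrum O} {P : MI k} :
    𝔪 ∈ above k P ↔ 𝔪.asIdeal.under k[X] = Ideal.span {P.1} := by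
  have hfd := finiteDim_RO (k := k) G 𝔪
  rw [under_eq]
  constructor
  · intro h
    have h1 : (pt (k := k) 𝔪).1 = P.1 := h
    rw [h1]
  · intro h
    exact eq_of_span h

include G in
theorem image_above (P : MI k) : (fun 𝔪 : MaximalSpectrum O => 𝔪.asIdeal) '' above k P =
    (Ideal.span {P.1}).primesOver O := by
  have hint := isIntegral_O (k := k) (O := O) G
  have hP : (Ideal.span {P.1}).IsMaximal := by
    have h1 : Fact (Irreducible P.1) := ⟨P.2.2⟩
    exact AdjoinRoot.span_maximal_of_irreducible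
  ext Q
  constructor
  · rintro ⟨𝔪, h𝔪, rfl⟩
    have h1 := (mem_above G).1 h𝔪
    exact ⟨𝔪.isMaximal.isPrime, ⟨h1.symm⟩⟩
  · rintro ⟨hQ, hl⟩
    have hQm : Q.IsMaximal := by
      apply Ideal.isMaximal_of_isIntegral_of_isMaximal_comap (R := k[X])
      have h2 := hl.over
      show (Q.under k[X]).IsMaximal
      rw [← h2]
      exact hP
    exact ⟨⟨Q, hQm⟩, (mem_above G).2 hl.over.symm, rfl⟩

include G in
theorem above_finite (P : MI k) : (above k P : Set (MaximalSpectrum O)).Finite := by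
  have h1 : Set.InjOn (fun 𝔪 : MaximalSpectrum O => 𝔪.asIdeal) (above k P) :=
    fun 𝔪 _ 𝔫 _ h => MaximalSpectrum.ext h
  refine Set.Finite.of_finite_image ?_ h1
  rw [image_above G]
  rcases ((Ideal.span {P.1}).primesOver O).eq_empty_or_nonempty with h | ⟨Q, hQ⟩
  · rw [h]
    exact Set.finite_empty
  · have hc := IsGaloisGroup.commutes (G := G) (A := k[X]) (B := O)
    have hi := IsGaloisGroup.isInvariant (G := G) (A := k[X]) (B := O)
    have h2 := hQ.1
    have h3 := hQ.2
    rw [← Algebra.IsInvariant.orbit_eq_primesOver k[X] O G (Ideal.span {P.1}) Q]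
    exact Set.finite_range _

include G in
theorem ncard_above (P : MI k) : (above k P : Set (MaximalSpectrum O)).ncard =
    ((Ideal.span {P.1}).primesOver O).ncard := by
  rw [← image_above G]
  exact (Set.ncard_image_of_injective _ fun 𝔪 𝔫 h => MaximalSpectrum.ext h).symm

include G in
theorem above_nonempty [FaithfulSMul k[X] O] (P : MI k) :
    (above k P : Set (MaximalSpectrum O)).Nonempty := by
  have hint := isIntegral_O (k := k) (O := O) G
  have hP : (Ideal.span {P.1}).IsMaximal := by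
    have h1 : Fact (Irreducible P.1) := ⟨P.2.2⟩
    exact AdjoinRoot.span_maximal_of_irreducible
  obtain ⟨Q, hQ, hl⟩ := Ideal.exists_maximal_ideal_liesOver_of_isIntegral (S := O)
    (Ideal.span {P.1})
  exact ⟨⟨Q, hQ⟩, (mem_above G).2 hl.over.symm⟩

include G in
theorem inertia_mul {P : MI k} {𝔪 : MaximalSpectrum O} (h : 𝔪 ∈ above k P) :
    (above k P : Set (MaximalSpectrum O)).ncard * Nat.card (𝔪.asIdeal.inertia G) *
      𝔪.asIdeal.inertiaDeg k[X] = Nat.card G := by
  have hfd := finiteDim_RO (k := k) G 𝔪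
  have h1 := card_points (k := k) G 𝔪
  have h2 : (pt (k := k) 𝔪).1 = P.1 := h
  rw [h2, ← ncard_above G] at h1
  exact h1

include G in
/-- the degrees of the points above an unramified point -/
theorem sum_inertiaDeg [FaithfulSMul k[X] O] (P : MI k)
    (hun : ∀ 𝔪 : MaximalSpectrum O, 𝔪 ∈ above k P → 𝔪.asIdeal.inertia G = ⊥) :
    ∑ 𝔪 ∈ (above_finite (O := O) G P).toFinset, 𝔪.asIdeal.inertiaDeg k[X] = Nat.card G := by
  obtain ⟨𝔪₀, h₀⟩ := above_nonempty (O := O) G P
  have h1 := fun (𝔪 : MaximalSpectrum O) (h : 𝔪 ∈ above k P) => inertia_mul G h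
  have h2 : ∀ 𝔪 : MaximalSpectrum O, 𝔪 ∈ above k P →
      𝔪.asIdeal.inertiaDeg k[X] = 𝔪₀.asIdeal.inertiaDeg k[X] := by
    intro 𝔪 h
    have h3 := h1 𝔪 h
    have h4 := h1 𝔪₀ h₀
    rw [hun 𝔪 h, Subgroup.card_bot, mul_one] at h3
    rw [hun 𝔪₀ h₀, Subgroup.card_bot, mul_one] at h4
    have h5 : 0 < Nat.card G := Nat.card_pos
    have h6 : 0 < (above k P : Set (MaximalSpectrum O)).ncard := by
      rcases Nat.eq_zero_or_pos (above k P : Set (MaximalSpectrum O)).ncard with h | h
      · rw [h, zero_mul] at h3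
        omega
      · exact h
    exact Nat.eq_of_mul_eq_mul_left h6 (h3.trans h4.symm)
  rw [Finset.sum_congr rfl (fun 𝔪 h𝔪 => h2 𝔪 ((Set.Finite.mem_toFinset _).1 h𝔪)), Finset.sum_const,
    smul_eq_mul, ← Set.ncard_eq_toFinset_card _ (above_finite (O := O) G P)]
  have h4 := h1 𝔪₀ h₀
  rw [hun 𝔪₀ h₀, Subgroup.card_bot, mul_one] at h4
  exact h4

include G in
theorem inertiaDeg_pos {𝔪 : MaximalSpectrum O} : 0 < 𝔪.asIdeal.inertiaDeg k[X] := by
  have hfd := finiteDim_RO (k := k) G 𝔪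
  have h1 := card_points (k := k) G 𝔪
  rcases Nat.eq_zero_or_pos (𝔪.asIdeal.inertiaDeg k[X]) with h | h
  · rw [h, mul_zero] at h1
    have h5 : 0 < Nat.card G := Nat.card_pos
    omega
  · exact h

include G in
theorem inertiaDeg_pow {p n : ℕ} (hp : p.Prime) (hG : Nat.card G = p ^ n) (𝔪 : MaximalSpectrum O) :
    ∃ a, 𝔪.asIdeal.inertiaDeg k[X] = p ^ a := by
  have hfd := finiteDim_RO (k := k) G 𝔪
  have h1 := card_points (k := k) G 𝔪
  rw [hG] at h1
  obtain ⟨a, _, ha⟩ := (Nat.dvd_prime_pow hp).1 ⟨_, (mul_comm _ _).trans h1 |>.symm⟩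
  exact ⟨a, ha⟩

include G in
theorem points_finite (n : ℕ) : {𝔪 : MaximalSpectrum O | finrank k (RO k 𝔪) ≤ n}.Finite := by
  have h1 : {𝔪 : MaximalSpectrum O | finrank k (RO k 𝔪) ≤ n} ⊆
      ⋃ P ∈ {P : MI k | P.1.natDegree ≤ n}, above k P := by
    intro 𝔪 h𝔪
    have hfd := finiteDim_RO (k := k) G 𝔪
    rw [Set.mem_iUnion₂]
    refine ⟨pt (k := k) 𝔪, ?_, rfl⟩
    have h2 := finrank_RO (k := k) G 𝔪
    have h3 := inertiaDeg_pos (k := k) G (𝔪 := 𝔪)
    have h4 : finrank k (RO k 𝔪) ≤ n := h𝔪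
    have h5 := Nat.le_mul_of_pos_right (pt (k := k) 𝔪).1.natDegree h3
    show (pt (k := k) 𝔪).1.natDegree ≤ n
    omega
  refine Set.Finite.subset ?_ h1
  exact (finite_deg_le (F := k) n).biUnion fun P _ => above_finite (O := O) G P

end gal

section emb

variable {k : Type} [Field k] {O : Type} [CommRing O] [Algebra k[X] O]
  {K : Type} [Field K] [Algebra k K] [IsAlgClosed K]

/-- an embedding of the residue field -/
theorem exists_emb {𝔪 : MaximalSpectrum O} [FiniteDimensional k (RO k 𝔪)] {P : MI k}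
    (h : 𝔪 ∈ above k P) {r : K} (hr : aeval r P.1 = 0) :
    ∃ σ : RO k 𝔪 →ₐ[k] K, σ (vO k 𝔪 X) = r := by
  apply IntermediateField.exists_algHom_of_splits_of_aeval
  · intro s
    exact ⟨IsIntegral.of_finite k s, IsAlgClosed.splits _⟩
  · have h1 : minpoly k (vO k 𝔪 X) = P.1 := h
    rw [h1]
    exact hr

end emb

end Pool.Agent.Y709.Lay
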