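import Pool.Agent.Y709.Lay.MainL
import Mathlib.NumberTheory.MulChar.Lemmas

/-!
Characters of an extension of the field of constants.
-/

set_option autoImplicit false
set_option linter.unusedSectionVars false

open Polynomial Module

namespace Pool.Agent.Y709.Lay

open Pool.Agent.W313.Hyp Pool.Agent.W343.BSD Pool.Agent.Y709 Pool.Agent.Y709.Gen

section char

variable {k₀ k : Type} [Field k₀] [Fintype k₀] [Field k] [Finite k] [Algebra k₀ k] {q : ℕ}

/-- a character of order `q - 1` is a composite with the norm -/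
theorem exists_char (hk₀ : Fintype.card k₀ = q) (χ' : MulChar k ℂ) (h : orderOf χ' = q - 1) :
    ∃ χ : MulChar k₀ ℂ, orderOf χ = q - 1 ∧ ∀ u : k, χ' u = χ (Algebra.norm k₀ u) := by
  classical
  obtain ⟨g, hg⟩ := IsCyclic.exists_generator (α := kˣ)
  have hN := FiniteField.unitsMap_norm_surjective k₀ k
  set a : k₀ˣ := Units.map (Algebra.norm k₀ (S := k)) g with ha
  have hag : ∀ x, x ∈ Subgroup.zpowers a := by
    intro x
    obtain ⟨y, rfl⟩ := hN x
    obtain ⟨n, hn⟩ := hg y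
    refine ⟨n, ?_⟩
    dsimp only at hn ⊢
    rw [ha, ← map_zpow, hn]
  let ω : ℂˣ := Units.map (χ' : k →* ℂ) g
  have hω : ω ∈ rootsOfUnity (Fintype.card k₀ˣ) ℂ := by
    rw [mem_rootsOfUnity, Fintype.card_units, hk₀]
    apply Units.ext
    have h1 : χ' ^ (q - 1) = 1 := by rw [← h]; exact pow_orderOf_eq_one χ'
    have h2 := congrArg (fun ψ : MulChar k ℂ => ψ (g : k)) h1
    simp only [MulChar.pow_apply_coe, MulChar.one_apply_coe] at h2
    exact h2
  let χ : MulChar k₀ ℂ := MulChar.ofRootOfUnity hω hag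
  have hχa : χ (Algebra.norm k₀ (g : k)) = χ' (g : k) := by
    have h1 := MulChar.ofRootOfUnity_spec hω hag
    exact h1
  have hcomp : ∀ u : k, χ' u = χ (Algebra.norm k₀ u) := by
    intro u
    by_cases hu : u = 0
    · rw [hu, MulChar.map_zero, Algebra.norm_zero, MulChar.map_zero]
    · obtain ⟨n, hn⟩ := (mem_powers_iff_mem_zpowers).2 (hg (Units.mk0 u hu))
      dsimp only at hn
      have hn' : u = (g : k) ^ n := by
        rw [← Units.val_pow_eq_pow_val, hn, Units.val_mk0]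
      rw [hn', map_pow, map_pow, map_pow, hχa]
  refine ⟨χ, ?_, hcomp⟩
  rw [← h, orderOf_eq_orderOf_iff]
  intro n
  constructor
  · intro h1
    refine MulChar.ext fun u => ?_
    have h2 := congrArg (fun ψ : MulChar k₀ ℂ =>
      ψ ((Units.map (Algebra.norm k₀ (S := k)) u : k₀ˣ) : k₀)) h1
    simp only [MulChar.pow_apply_coe, MulChar.one_apply_coe] at h2
    rw [MulChar.pow_apply_coe, MulChar.one_apply_coe, hcomp]
    exact h2
  · intro h1
    refine MulChar.ext fun v => ?_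
    obtain ⟨u, rfl⟩ := hN v
    have h2 := congrArg (fun ψ : MulChar k ℂ => ψ (u : k)) h1
    simp only [MulChar.pow_apply_coe, MulChar.one_apply_coe] at h2
    rw [MulChar.pow_apply_coe, MulChar.one_apply_coe]
    rw [hcomp] at h2
    exact h2

end char

section lo

variable {k₀ k : Type} [Field k₀] [Fintype k₀] [Field k] [Fintype k] [Algebra k₀ k] {O : Type}
  [CommRing O] [Algebra k[X] O] {κ : Type} [Fintype κ]
  (G : Type) [Group G] [Finite G] [MulSemiringAction G O] [IsGaloisGroup G k[X] O]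

include G in
theorem LO_norm {χ' : MulChar k ℂ} {χ : MulChar k₀ ℂ}
    (h : ∀ u : k, χ' u = χ (Algebra.norm k₀ u)) (E : k[X]) (b : κ → k[X]) (m : κ → ℕ) :
    LO O χ' E b m = LO O χ E b m := by
  unfold LO
  congr 1
  funext z
  have hfd := finiteDim_RO (k := k) G z.1
  have hf : Fact (Irreducible z.2.1) := ⟨z.2.2.2⟩
  have hfd1 : FiniteDimensional (RO k z.1) (AdjoinRoot z.2.1) := z.2.2.1.finite_adjoinRoot
  have hfd2 : FiniteDimensional k (AdjoinRoot z.2.1) := FiniteDimensional.trans k (RO k z.1) _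
  rw [h, Algebra.norm_norm]

/-- some function over a covering of degree a power of `p` that is unramified outside the zeros of
`E` vanishes -/
def VanX {k : Type} [Field k] (p n e : ℕ) {κ : Type} [Fintype κ] (E : k[X]) (b : κ → k[X])
    (m : κ → ℕ) : Prop :=
  ∃ (G O : Type) (_ : Group G) (_ : Finite G) (_ : CommRing O) (_ : Algebra k[X] O)
    (_ : MulSemiringAction G O) (_ : IsGaloisGroup G k[X] O) (_ : FaithfulSMul k[X] O),
    IsPGroup p G ∧ (∀ 𝔪 : MaximalSpectrum O, vO k 𝔪 E ≠ 0 → 𝔪.asIdeal.inertia G = ⊥) ∧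
    ∃ χ : MulChar k ℂ, orderOf χ = n ∧ ∃ ζ : ℂ, ζ ^ e = 1 ∧ ∃ H : ℂ[X],
      LO O χ E b m = (((1 - C ((Nat.card k : ℂ) * ζ) * X) * H : ℂ[X]) : PowerSeries ℂ)

theorem vanL_of_vanX {p q s e : ℕ} (hk₀ : Fintype.card k₀ = q) (hk : Fintype.card k = q ^ s)
    {E : k[X]} {b : κ → k[X]} {m : κ → ℕ} (h : VanX p (q - 1) e E b m) :
    VanL k₀ p q s e E b m := by
  obtain ⟨G, O, i1, i2, i3, i4, i5, i6, i7, hG, hun, χ', hχ', ζ, hζ, H, hH⟩ := h
  obtain ⟨χ, hχ, hcomp⟩ := exists_char hk₀ χ' hχ'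
  refine ⟨G, O, i1, i2, i3, i4, i5, i6, i7, hG, hun, χ, hχ, ζ, hζ, H, ?_⟩
  rw [← LO_norm G hcomp, hH, Nat.card_eq_fintype_card, hk]

end lo

end Pool.Agent.Y709.Lay
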