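import Mathlib.LinearAlgebra.Matrix.Charpoly.Coeff
import Mathlib.LinearAlgebra.Matrix.CharP
import Mathlib.RingTheory.PowerSeries.Expand
import Mathlib.Algebra.CharP.Lemmas

/-!
Powers of matrices and characteristic polynomials in characteristic `p`.
-/

set_option autoImplicit false
set_option linter.unusedSectionVars false

open Polynomial

namespace Pool.Agent.Y709.Lay

variable {K : Type} [CommRing K] {ι : Type} [Fintype ι] [DecidableEq ι]

theorem expand_charpolyRev_pow {p : ℕ} [hp : Fact p.Prime] [CharP K p] (A : Matrix ι ι K) (a : ℕ) :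
    Polynomial.expand K (p ^ a) (A ^ (p ^ a)).charpolyRev = A.charpolyRev ^ (p ^ a) := by
  classical
  unfold Matrix.charpolyRev
  rcases isEmpty_or_nonempty ι with h | h
  · rw [Matrix.det_isEmpty, Matrix.det_isEmpty, map_one, one_pow]
  rw [← Matrix.det_pow, sub_pow_char_pow_of_commute _ _ (Commute.one_left _), one_pow, smul_pow]
  have h1 : (A.map C : Matrix ι ι K[X]) ^ (p ^ a) = (A ^ (p ^ a)).map C := by
    have := map_pow (RingHom.mapMatrix (C : K →+* K[X])) A (p ^ a)
    exact this.symm
  rw [h1, AlgHom.map_det]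
  congr 1
  refine Matrix.ext fun i j => ?_
  rw [AlgHom.mapMatrix_apply, Matrix.map_apply, Matrix.sub_apply, Matrix.sub_apply,
    Matrix.smul_apply, Matrix.smul_apply, Matrix.map_apply, smul_eq_mul, smul_eq_mul, map_sub, map_mul,
    expand_X, expand_C, Matrix.one_apply]
  split_ifs
  · rw [map_one]
  · rw [map_zero]

theorem coe_expand (P : K[X]) {n : ℕ} (hn : n ≠ 0) :
    ((Polynomial.expand K n P : K[X]) : PowerSeries K) = PowerSeries.expand n hn (P : PowerSeries K) := by
  ext m
  rw [Polynomial.coeff_coe, Polynomial.coeff_expand (Nat.pos_of_ne_zero hn), PowerSeries.coeff_expand,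
    Polynomial.coeff_coe]

/-- the power of a matrix and the expansion -/
theorem expand_pow_charpolyRev {p : ℕ} [hp : Fact p.Prime] [CharP K p] (A : Matrix ι ι K) {d f e : ℕ}
    (hd : d ≠ 0) (he : e ≠ 0) (hf : ∃ a, f = p ^ a) (h : e = d * f) :
    PowerSeries.expand e he ((A ^ f).charpolyRev : PowerSeries K) =
      (PowerSeries.expand d hd (A.charpolyRev : PowerSeries K)) ^ f := by
  obtain ⟨a, rfl⟩ := hf
  subst h
  have hf0 : p ^ a ≠ 0 := pow_ne_zero _ hp.out.ne_zero
  rw [PowerSeries.expand_mul d hd (p ^ a) hf0, ← coe_expand, expand_charpolyRev_pow,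
    Polynomial.coe_pow, map_pow]

end Pool.Agent.Y709.Lay
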