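import Pool.Agent.Y709.Witt

/-!
The trace formula for the composites of semilinear operators on the line.
-/

set_option autoImplicit false
set_option linter.unusedSectionVars false

open Polynomial Module

namespace Pool.Agent.Y709.Lay

open Pool.Agent.W313.Hyp Pool.Agent.W343.BSD Pool.Agent.Y709

section basic

variable {R : Type} [CommRing R] {ι : Type} [Fintype ι] [DecidableEq ι]

theorem gprodG_at (q : ℕ) (G : ℕ → Matrix ι ι R[X]) (n : ℕ) (z : R) :
    at' (gprod q G n) z = mprod (fun j => at' (G j) (z ^ (q ^ j))) n := by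
  unfold gprod at'
  rw [mprod_map]
  congr 1
  funext j
  refine Matrix.ext fun a b => ?_
  rw [Matrix.map_apply, Matrix.map_apply, Matrix.map_apply, coe_evalRingHom, expand_eval]
  rfl

theorem per_mul {A : Type} {F : ℕ → A} {s : ℕ} (h : ∀ j, F (j + s) = F j) (d j : ℕ) :
    F (j + d * s) = F j := by
  induction d with
  | zero => rw [zero_mul, add_zero]
  | succ d ih => rw [Nat.succ_mul, ← add_assoc, h, ih]

/-- the product over the conjugates of a point -/
noncomputable def locS {K : Type} [Field K] (τ : K →* R) (q : ℕ) (G : ℕ → Matrix ι ι R[X]) (a : K)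
    (L : ℕ) : Matrix ι ι R := mprod (fun j => at' (G j) (τ a ^ (q ^ j))) L

/-- the local factor -/
noncomputable def locFS {K : Type} [Field K] (τ : K →* R) (q s : ℕ) (G : ℕ → Matrix ι ι R[X])
    (a : K) (d : ℕ) (hd : d ≠ 0) : PowerSeries R :=
  PowerSeries.expand d hd ((locS τ q G a (d * s)).charpolyRev : PowerSeries R)

theorem locFS_mod {K : Type} [Field K] (τ : K →* R) (q s : ℕ) (G : ℕ → Matrix ι ι R[X]) (a : K)
    (d : ℕ) (hd : d ≠ 0) : (PowerSeries.X : PowerSeries R) ^ d ∣ locFS τ q s G a d hd - 1 := by
  unfold locFS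
  rw [PowerSeries.X_pow_dvd_iff]
  intro m hm
  rw [map_sub]
  rcases Nat.eq_zero_or_pos m with h | h
  · subst h
    rw [PowerSeries.coeff_zero_eq_constantCoeff_apply, PowerSeries.constantCoeff_expand,
      constantCoeff_charpolyRev, PowerSeries.coeff_zero_one, sub_self]
  · rw [PowerSeries.coeff_expand_of_not_dvd, PowerSeries.coeff_one, if_neg h.ne', sub_self]
    intro hd'
    have := Nat.le_of_dvd h hd'
    omega

theorem lg_locFS {K : Type} [Field K] (τ : K →* R) (q s : ℕ) (G : ℕ → Matrix ι ι R[X]) (a : K)
    (d : ℕ) (hd : d ≠ 0) :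
    Lg (locFS τ q s G a d hd)
      ((d : PowerSeries R) * PowerSeries.expand d hd (psum (locS τ q G a (d * s)))) :=
  (lg_charpolyRev _).expand hd

end basic

section formula

variable {R : Type} [CommRing R] {ι : Type} [Fintype ι] [DecidableEq ι] [IsDomain R]

theorem sum_traceG {E : Type} [Field E] [Fintype E] (τ : E →* R) (hτ : Function.Injective τ)
    (h0 : τ 0 = 0) {q m n s : ℕ} (hq : 1 < q) (hn : 0 < n) (hs : 0 < s)
    (hE : Fintype.card E = q ^ (n * s)) (G : ℕ → Matrix ι ι R[X]) (hper : ∀ j, G (j + s) = G j)
    (hG : ∀ j a b, (G j a b).natDegree < (q - 1) * (m + 1)) :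
    ∑ u : E, (mprod (fun j => at' (G j) (τ u ^ (q ^ j))) (n * s)).trace =
      (q : R) ^ (n * s) * ((mprod (fun j => at' (G j) 0) s) ^ n).trace +
        ((q : R) ^ (n * s) - 1) * ((mprod (fun j => kmat q m (G j)) s) ^ n).trace := by
  have h1 : ∀ u : E, (mprod (fun j => at' (G j) (τ u ^ (q ^ j))) (n * s)).trace =
      ((gprod q G (n * s)).trace).eval (τ u) := by
    intro u
    rw [← trace_at, gprodG_at]
  simp only [h1]
  rw [sum_trace_gen τ hτ h0 hq (Nat.mul_pos hn hs) hE G (m := m) hG,
    mprod_mul (F := fun j => kmat q m (G j)) (fun j => by rw [hper])]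
  congr 2
  rw [coeff_zero_eq_eval_zero, ← trace_at, gprodG_at]
  have h2 : (fun j => at' (G j) ((0 : R) ^ (q ^ j))) = fun j => at' (G j) 0 := by
    funext j
    rw [zero_pow (pow_pos (by omega) j).ne']
  rw [h2, mprod_mul (F := fun j => at' (G j) 0) (fun j => by rw [hper])]

variable {k : Type} [Field k] [Finite k] {K : Type} [Field K] [Algebra k K] [IsAlgClosed K]
  [Algebra.IsAlgebraic k K]

theorem trace_locS (τ : K →* R) {q s : ℕ} (hq : Nat.card k = q ^ s) (G : ℕ → Matrix ι ι R[X])
    (hper : ∀ j, G (j + s) = G j) (P : MI k) {a b : K}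
    (ha : aeval a P.1 = 0) (hb : aeval b P.1 = 0) {n : ℕ} (hn : P.1.natDegree ∣ n) :
    (locS τ q G b (n * s)).trace =
      ((locS τ q G a (P.1.natDegree * s)) ^ (n / P.1.natDegree)).trace := by
  have hac : IsAlgClosure k K := ⟨inferInstance, inferInstance⟩
  have hnorm : Normal k K := IsAlgClosure.normal k K
  obtain ⟨i, rfl⟩ := exists_pow_root P ha hb
  unfold locS
  set F : ℕ → Matrix ι ι R := fun j => at' (G j) (τ a ^ (q ^ j)) with hF
  have h1 : (fun j => at' (G j) (τ (a ^ (Nat.card k ^ i)) ^ (q ^ j))) = fun j => F (j + i * s) := by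
    funext j
    rw [hF]
    show at' _ _ = at' _ _
    rw [per_mul hper, map_pow, ← pow_mul, hq, ← pow_mul, ← pow_add]
    congr 3
    ring
  have hper' : ∀ d, P.1.natDegree ∣ d → ∀ j, F (j + d * s) = F j := by
    intro d hd j
    rw [hF]
    show at' _ _ = at' _ _
    rw [per_mul hper]
    congr 1
    have h2 : q ^ (j + d * s) = Nat.card k ^ d * q ^ j := by
      rw [hq, ← pow_mul, ← pow_add]
      congr 1
      ring
    rw [h2, pow_mul, ← map_pow, root_pow P ha hd]
  rw [h1, trace_mprod_shift (hper' n hn)]
  obtain ⟨l, hl⟩ := hn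
  have hdpos : 0 < P.1.natDegree := MI.deg_pos P
  have h2 : n / P.1.natDegree = l := by
    rw [hl]
    exact Nat.mul_div_cancel_left l hdpos
  rw [h2, ← mprod_mul (hper' _ dvd_rfl), hl]
  congr 2
  ring

variable [CharZero R]

/-- the trace formula -/
theorem formulaS (τ : K →* R) (hτ : Function.Injective τ) (h0 : τ 0 = 0) {q s m : ℕ} (hs : 0 < s)
    (hq1 : 1 < q) (hq : Nat.card k = q ^ s) (G : ℕ → Matrix ι ι R[X]) (hper : ∀ j, G (j + s) = G j)
    (hG : ∀ j a b, (G j a b).natDegree < (q - 1) * (m + 1))
    (ρ : MI k → K) (hρ : ∀ P : MI k, aeval (ρ P) P.1 = 0) :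
    eulerProd (fun P : MI k => P.1.natDegree)
        (fun P => locFS τ q s G (ρ P) P.1.natDegree (deg_ne P)) *
        ((mprod (fun j => kmat q m (G j)) s).charpolyRev : PowerSeries R) =
      PowerSeries.rescale ((q : R) ^ s)
          ((mprod (fun j => kmat q m (G j)) s).charpolyRev : PowerSeries R) *
        PowerSeries.rescale ((q : R) ^ s)
          ((mprod (fun j => at' (G j) 0) s).charpolyRev : PowerSeries R) := by
  classical
  set A := mprod (fun j => kmat q m (G j)) s with hA
  set B := mprod (fun j => at' (G j) 0) s with hB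
  have hfin := fun n => finite_deg_le (F := k) n
  have hL := Lg.euler hfin (fun P => locFS_mod τ q s G (ρ P) P.1.natDegree (deg_ne P))
    (fun P => lg_locFS τ q s G (ρ P) P.1.natDegree (deg_ne P))
  have h1 := hL.mul (lg_charpolyRev A)
  have h2 := ((lg_charpolyRev A).rescale ((q : R) ^ s)).mul
    ((lg_charpolyRev B).rescale ((q : R) ^ s))
  have hE1 : PowerSeries.constantCoeff (eulerProd (fun P : MI k => P.1.natDegree)
        (fun P => locFS τ q s G (ρ P) P.1.natDegree (deg_ne P))) = 1 := by
    rw [← PowerSeries.coeff_zero_eq_constantCoeff_apply, coeff_eulerProd hfin]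
    have h3 : (hfin 0).toFinset = ∅ := by
      rw [Set.Finite.toFinset_eq_empty]
      ext P
      simp only [Set.mem_setOf_eq, Set.mem_empty_iff_false, iff_false]
      have := MI.deg_pos P
      omega
    rw [h3, Finset.prod_empty, PowerSeries.coeff_zero_one]
  refine Lg.unique h1 ((congrArg (Lg _) ?_).mpr h2) ?_ ?_
  · ext n
    rw [map_add, map_add, PowerSeries.coeff_mk, PowerSeries.coeff_rescale,
      PowerSeries.coeff_rescale]
    rw [coeff_psum, coeff_psum]
    rcases Nat.eq_zero_or_pos n with hn | hn
    · subst hn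
      rw [if_pos rfl, if_pos rfl, mul_zero, add_zero, add_zero]
      refine Finset.sum_eq_zero fun P hP => ?_
      rw [Set.Finite.mem_toFinset] at hP
      have h4 := MI.deg_pos P
      have h5 : P.1.natDegree ≤ 0 := hP
      omega
    · rw [if_neg hn.ne', if_neg hn.ne']
      obtain ⟨p, hp⟩ := CharP.exists k
      have hpf : Fact (Nat.Prime p) := ⟨CharP.char_is_prime k p⟩
      have hnz : NeZero n := ⟨hn.ne'⟩
      have hEf : Fintype (FiniteField.Extension k p n) := Fintype.ofFinite _
      let σ : FiniteField.Extension k p n →ₐ[k] K := IsAlgClosed.lift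
      have hσ0 : (τ.comp (σ : FiniteField.Extension k p n →* K)) 0 = 0 := by
        show τ (σ 0) = 0
        rw [map_zero, h0]
      have h6 := sum_traceG (R := R) (E := FiniteField.Extension k p n)
        (τ.comp (σ : FiniteField.Extension k p n →* K)) (hτ.comp (RingHom.injective
          (σ : FiniteField.Extension k p n →+* K))) hσ0 hq1 (n := n) (s := s) hn hs (by
          rw [Fintype.card_eq_nat_card, FiniteField.natCard_extension, hq, ← pow_mul, mul_comm]) G
          hper hG
      have h7 := sum_closed (k := k) (E := FiniteField.Extension k p n) (n := n) (A := R)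
        (FiniteField.finrank_extension k p n)
        (fun u => (mprod (fun j => at' (G j)
          ((τ.comp (σ : FiniteField.Extension k p n →* K)) u ^ (q ^ j))) (n * s)).trace)
        (fun P => if P.1.natDegree ∣ n then
          ((locS τ q G (ρ P) (P.1.natDegree * s)) ^ (n / P.1.natDegree)).trace else
          0) (by
          intro P θ hθ
          have hd : P.1.natDegree ∣ n := by
            rw [← FiniteField.finrank_extension k p n,
              minpoly.eq_of_irreducible_of_monic P.2.2 hθ P.2.1]
            exact minpoly.degree_dvd (IsIntegral.of_finite k θ)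
          rw [if_pos hd]
          exact trace_locS τ hq G hper P (hρ P) (b := σ θ) (by
            rw [aeval_algHom_apply, hθ, map_zero]) hd)
      have h9 : ∑ P ∈ (hfin n).toFinset, PowerSeries.coeff n ((P.1.natDegree : PowerSeries R) *
          PowerSeries.expand P.1.natDegree (deg_ne P)
            (psum (locS τ q G (ρ P) (P.1.natDegree * s)))) =
          ∑ P ∈ (finite_deg_le (F := k) n).toFinset,
            if P.1.natDegree ∣ n then P.1.natDegree • (if P.1.natDegree ∣ n then
              ((locS τ q G (ρ P) (P.1.natDegree * s)) ^ (n / P.1.natDegree)).trace else 0)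
              else 0 := by
        refine Finset.sum_congr rfl fun P _ => ?_
        rw [← map_natCast (PowerSeries.C (R := R)), PowerSeries.coeff_C_mul]
        split_ifs with hd
        · obtain ⟨l, hl⟩ := hd
          have hdpos := MI.deg_pos P
          have hl0 : l ≠ 0 := by
            rintro rfl
            rw [mul_zero] at hl
            omega
          have h10 : n / P.1.natDegree = l := by
            rw [hl]
            exact Nat.mul_div_cancel_left l hdpos
          rw [h10, hl, PowerSeries.coeff_expand_mul, coeff_psum, if_neg hl0,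
            nsmul_eq_mul]
        · rw [PowerSeries.coeff_expand_of_not_dvd _ _ _ hd, mul_zero]
      rw [h9, ← h7, h6, mul_comm n s, pow_mul]
      ring
  · rw [map_mul, hE1, constantCoeff_charpolyRev, one_mul]
  · rw [map_mul, ← PowerSeries.coeff_zero_eq_constantCoeff_apply,
      ← PowerSeries.coeff_zero_eq_constantCoeff_apply, PowerSeries.coeff_rescale,
      PowerSeries.coeff_rescale, PowerSeries.coeff_zero_eq_constantCoeff_apply,
      PowerSeries.coeff_zero_eq_constantCoeff_apply, constantCoeff_charpolyRev,
      constantCoeff_charpolyRev]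
    ring

end formula

section modp

variable {ι : Type} [Fintype ι] [DecidableEq ι]
variable {k : Type} [Field k] [Finite k] {K : Type} [Field K] [Algebra k K] [IsAlgClosed K]
  [Algebra.IsAlgebraic k K]

/-- the trace formula in characteristic `p` -/
theorem formula_modS {q s m : ℕ} (hs : 0 < s) (hq1 : 1 < q) (hq : Nat.card k = q ^ s)
    (G : ℕ → Matrix ι ι K[X]) (hper : ∀ j, G (j + s) = G j)
    (hG : ∀ j a b, (G j a b).natDegree < (q - 1) * (m + 1))
    (ρ : MI k → K) (hρ : ∀ P : MI k, aeval (ρ P) P.1 = 0) :
    eulerProd (fun P : MI k => P.1.natDegree)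
        (fun P => locFS (MonoidHom.id K) q s G (ρ P) P.1.natDegree (deg_ne P)) *
        ((mprod (fun j => kmat q m (G j)) s).charpolyRev : PowerSeries K) = 1 := by
  obtain ⟨p, hp⟩ := CharP.exists k
  have hpf : Fact (Nat.Prime p) := ⟨CharP.char_is_prime k p⟩
  have hpK : CharP K p := charP_of_injective_algebraMap (algebraMap k K).injective p
  have hc0 := witt_charZero p K
  have hq0 : (((q ^ s : ℕ)) : K) = 0 := by
    have h1 : ((q ^ s : ℕ) : k) = 0 := by
      have hF : Fintype k := Fintype.ofFinite k
      rw [← hq, Nat.card_eq_fintype_card]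
      exact FiniteField.cast_card_eq_zero k
    rw [← map_natCast (algebraMap k K), h1, map_zero]
  let π : WittVector p K →+* K := WittVector.constantCoeff
  have hπ : Function.Surjective π := fun a => ⟨WittVector.teichmuller p a, coeff_teich p K a⟩
  have hl : ∀ (j : ℕ) a b, ∃ g : (WittVector p K)[X], g.map π = G j a b ∧
      g.natDegree ≤ (G j a b).natDegree := fun j a b => exists_lift π hπ (G j a b)
  choose L hL1 hL2 using hl
  have hmod : ∀ j, G (j % s) = G j := by
    intro j
    have h1 := per_mul hper (j / s) (j % s)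
    rw [mul_comm, Nat.mod_add_div] at h1
    exact h1.symm
  let G' : ℕ → Matrix ι ι (WittVector p K)[X] := fun j => Matrix.of (L (j % s))
  have h1 := formulaS (k := k) (K := K) (WittVector.teichmuller p : K →* WittVector p K)
    (teich_inj p K) (teich_zero p K) hs hq1 hq G' (m := m)
    (fun j => by show Matrix.of (L ((j + s) % s)) = _; rw [Nat.add_mod_right])
    (fun j a b => (hL2 (j % s) a b).trans_lt (hG (j % s) a b)) ρ hρ
  have h2 := congrArg (PowerSeries.map π) h1
  have hML : ∀ j, (G' j).map (mapRingHom π) = G j := by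
    intro j
    refine Matrix.ext fun a b => ?_
    show (L (j % s) a b).map π = G j a b
    rw [hL1, hmod]
  have hq0' : π ((q : WittVector p K) ^ s) = 0 := by
    rw [← Nat.cast_pow, map_natCast]
    exact hq0
  rw [map_mul, map_mul, map_rescale π hq0' _ (constantCoeff_charpolyRev _),
    map_rescale π hq0' _ (constantCoeff_charpolyRev _), mul_one,
    map_eulerProd (fun n => finite_deg_le (F := k) n),
    ← Polynomial.polynomial_map_coe, map_charpolyRev, mprod_map] at h2
  have h3 : (fun j => (kmat q m (G' j)).map π) = fun j => kmat q m (G j) := by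
    funext j
    rw [map_kmat, hML]
  rw [h3] at h2
  rw [← h2]
  congr 2
  funext P
  unfold locFS
  rw [PowerSeries.map_expand, ← Polynomial.polynomial_map_coe, map_charpolyRev]
  congr 3
  unfold locS
  rw [mprod_map]
  congr 1
  funext j
  rw [map_at, map_pow, hML]
  congr 2

end modp

end Pool.Agent.Y709.Lay
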