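import Pool.Agent.Y709.Lay.Formula
import Pool.Agent.Y709.Gen.FixG
import Mathlib.Algebra.CharP.Frobenius
import Mathlib.Algebra.Polynomial.Roots
import Mathlib.FieldTheory.Finite.Basic

/-!
Fixed vectors of semilinear maps over a finite field.
-/

set_option autoImplicit false
set_option linter.unusedSectionVars false

open Polynomial Module

namespace Pool.Agent.Y709.Lay

open Pool.Agent.W313.Hyp Pool.Agent.W343.BSD Pool.Agent.Y709

section descent

variable {k : Type} [Field k] [Fintype k] {p f₀ q s : ℕ} [hp : Fact p.Prime] [CharP k p]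
  {κ : Type} [Fintype κ] [DecidableEq κ]

theorem sum_pow_q (hq : q = p ^ f₀) {ι : Type} (t : Finset ι) (g : ι → k) (n : ℕ) :
    (∑ i ∈ t, g i) ^ (q ^ n) = ∑ i ∈ t, g i ^ (q ^ n) := by
  rw [hq, ← pow_mul]
  exact sum_pow_char_pow p _ t g

theorem pow_card_q (hk : Fintype.card k = q ^ s) (a : k) (n : ℕ) : a ^ (q ^ (s + n)) = a ^ (q ^ n) := by
  rw [pow_add, pow_mul, ← hk, FiniteField.pow_card]

/-- a vector fixed by the composite gives one fixed by the semilinear map -/
theorem descent (hq : q = p ^ f₀) (hq1 : 1 < q) (hs : 0 < s) (hk : Fintype.card k = q ^ s)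
    (B : Matrix κ κ k) (v : κ → k) (hv0 : v ≠ 0)
    (hv : (mprod (fun j => B.map (fun x => x ^ (q ^ j))) s).mulVec v = v) :
    ∃ u : κ → k, u ≠ 0 ∧ ∀ i, ∑ l, B i l * u l = (u i) ^ q := by
  classical
  set y : ℕ → κ → k := fun j => (mprod (fun j => B.map (fun x => x ^ (q ^ j))) j).mulVec v with hy
  have hy0 : y 0 = v := by
    show (1 : Matrix κ κ k).mulVec v = v
    rw [Matrix.one_mulVec]
  have hys : y s = v := hv
  have hysucc : ∀ j i, y (j + 1) i = ∑ l, B i l ^ (q ^ j) * y j l := by
    intro j i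
    show (mprod (fun j => B.map (fun x => x ^ (q ^ j))) (j + 1)).mulVec v i = _
    rw [mprod_succ, ← Matrix.mulVec_mulVec]
    rfl
  let u : k → κ → k := fun a i => ∑ j ∈ Finset.range s, (a * y j i) ^ (q ^ (s - j))
  have hfix : ∀ a i, ∑ l, B i l * u a l = (u a i) ^ q := by
    intro a i
    let g : ℕ → k := fun j => (a * y j i) ^ (q ^ (s + 1 - j))
    have h1 : ∑ l, B i l * u a l = ∑ j ∈ Finset.range s, g (j + 1) := by
      show ∑ l, B i l * ∑ j ∈ Finset.range s, (a * y j l) ^ (q ^ (s - j)) = _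
      simp only [Finset.mul_sum]
      rw [Finset.sum_comm]
      refine Finset.sum_congr rfl fun j hj => ?_
      rw [Finset.mem_range] at hj
      show _ = (a * y (j + 1) i) ^ (q ^ (s + 1 - (j + 1)))
      rw [hysucc, Nat.add_sub_add_right, mul_pow, sum_pow_q hq, Finset.mul_sum]
      refine Finset.sum_congr rfl fun l _ => ?_
      rw [mul_pow, mul_pow, ← pow_mul, ← pow_add]
      have h2 : j + (s - j) = s + 0 := by omega
      rw [h2, pow_card_q hk, pow_zero, pow_one]
      ring
    have h2 : (u a i) ^ q = ∑ j ∈ Finset.range s, g j := by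
      have h3 := sum_pow_q hq (Finset.range s) (fun j => (a * y j i) ^ (q ^ (s - j))) 1
      rw [pow_one] at h3
      refine h3.trans (Finset.sum_congr rfl fun j hj => ?_)
      rw [Finset.mem_range] at hj
      show _ = (a * y j i) ^ (q ^ (s + 1 - j))
      rw [← pow_mul, ← pow_succ]
      congr 2
      omega
    rw [h1, h2]
    have h4 := Finset.sum_range_succ g s
    have h5 := Finset.sum_range_succ' g s
    have h6 : g 0 = g s := by
      show (a * y 0 i) ^ (q ^ (s + 1 - 0)) = (a * y s i) ^ (q ^ (s + 1 - s))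
      rw [hy0, hys, Nat.sub_zero, pow_card_q hk]
      congr 2
      omega
    rw [h4, h6] at h5
    exact (add_right_cancel h5).symm
  obtain ⟨i, hi⟩ : ∃ i, v i ≠ 0 := by
    by_contra h
    push Not at h
    exact hv0 (funext h)
  let P : k[X] := C (v i) * X + ∑ j ∈ Finset.range (s - 1),
    C ((y (j + 1) i) ^ (q ^ (s - (j + 1)))) * X ^ (q ^ (s - (j + 1)))
  have hPu : ∀ a, P.eval a = u a i := by
    intro a
    show _ = ∑ j ∈ Finset.range s, (a * y j i) ^ (q ^ (s - j))
    obtain ⟨s', rfl⟩ : ∃ s', s = s' + 1 := ⟨s - 1, by omega⟩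
    rw [Finset.sum_range_succ']
    have h1 : (a * y 0 i) ^ (q ^ (s' + 1 - 0)) = v i * a := by
      have h2 := pow_card_q (s := s' + 1) hk (a * y 0 i) 0
      rw [add_zero, pow_zero, pow_one] at h2
      rw [Nat.sub_zero, h2, hy0, mul_comm]
    rw [h1]
    show (C (v i) * X + ∑ j ∈ Finset.range (s' + 1 - 1),
      C ((y (j + 1) i) ^ (q ^ (s' + 1 - (j + 1)))) * X ^ (q ^ (s' + 1 - (j + 1))) : k[X]).eval a = _
    rw [eval_add, eval_C_mul, eval_X, add_comm, eval_finsetSum, Nat.add_sub_cancel]
    congr 1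
    refine Finset.sum_congr rfl fun j _ => ?_
    rw [eval_C_mul, eval_pow, eval_X, mul_pow, mul_comm]
  have hP0 : P ≠ 0 := by
    intro h
    have h1 : P.coeff 1 = 0 := by rw [h, coeff_zero]
    have h2 : P.coeff 1 = v i := by
      show (C (v i) * X + ∑ j ∈ Finset.range (s - 1),
        C ((y (j + 1) i) ^ (q ^ (s - (j + 1)))) * X ^ (q ^ (s - (j + 1))) : k[X]).coeff 1 = _
      rw [coeff_add, coeff_C_mul, coeff_X_one, mul_one, finsetSum_coeff, Finset.sum_eq_zero,
        add_zero]
      intro j hj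
      rw [Finset.mem_range] at hj
      rw [coeff_C_mul, coeff_X_pow, if_neg, mul_zero]
      intro h3
      have h4 : 1 < q ^ (s - (j + 1)) := Nat.one_lt_pow (by omega) hq1
      omega
    exact hi (h2.symm.trans h1)
  have hPd : P.natDegree < Fintype.card k := by
    rw [hk]
    refine lt_of_le_of_lt (b := q ^ (s - 1)) ?_ (Nat.pow_lt_pow_right hq1 (by omega))
    refine (natDegree_add_le _ _).trans (max_le ?_ ?_)
    · exact ((natDegree_C_mul_le _ _).trans natDegree_X_le).trans (Nat.one_le_pow _ _ (by omega))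
    · refine natDegree_sum_le_of_forall_le _ _ fun j hj => ?_
      rw [Finset.mem_range] at hj
      refine (natDegree_C_mul_X_pow_le _ _).trans (Nat.pow_le_pow_right (by omega) (by omega))
  obtain ⟨a, ha⟩ : ∃ a, P.eval a ≠ 0 := by
    by_contra h
    push Not at h
    exact hP0 (Polynomial.eq_zero_of_natDegree_lt_card_of_eval_eq_zero P
      (f := (id : k → k)) Function.injective_id (fun x => h x) hPd)
  refine ⟨u a, ?_, hfix a⟩
  intro h
  apply ha
  rw [hPu, h]
  rfl

end descent

section twist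

variable {k K : Type} [Field k] [Fintype k] [Field K] [Algebra k K] {p f₀ q s : ℕ}
  [hp : Fact p.Prime] [CharP k p] {κ : Type} [Fintype κ] [DecidableEq κ]

/-- the map `x ↦ x ^ (q ^ j)` on `k`, with values in `K` -/
noncomputable def frK (k K : Type) [Field k] [Field K] [Algebra k K] (p f₀ : ℕ) [Fact p.Prime]
    [CharP k p] (j : ℕ) : k →+* K :=
  (algebraMap k K).comp (iterateFrobenius k p (f₀ * j))

theorem frK_apply (hq : q = p ^ f₀) (j : ℕ) (x : k) :
    frK k K p f₀ j x = (algebraMap k K x) ^ (q ^ j) := by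
  unfold frK
  rw [RingHom.comp_apply, iterateFrobenius_def, map_pow, hq, ← pow_mul]

/-- the conjugates of a matrix of polynomials -/
noncomputable def tw (K : Type) [Field K] [Algebra k K] (p f₀ : ℕ) [Fact p.Prime] [CharP k p]
    (M : Matrix κ κ k[X]) (j : ℕ) : Matrix κ κ K[X] :=
  M.map (Polynomial.map (frK k K p f₀ j))

theorem tw_per (hq : q = p ^ f₀) (hk : Fintype.card k = q ^ s) (M : Matrix κ κ k[X]) (j : ℕ) :
    tw K p f₀ M (j + s) = tw K p f₀ M j := by
  unfold tw
  congr 2
  refine RingHom.ext fun x => ?_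
  rw [frK_apply hq, frK_apply hq, ← map_pow, ← map_pow, add_comm j s, pow_card_q hk]

theorem kmat_tw (hq : q = p ^ f₀) (m : ℕ) (M : Matrix κ κ k[X]) (j : ℕ) :
    kmat q m (tw K p f₀ M j) =
      ((kmat q m M).map (fun x => x ^ (q ^ j))).map (algebraMap k K) := by
  refine Matrix.ext fun a b => ?_
  unfold kmat tw
  rw [Matrix.map_apply, Matrix.map_apply, Matrix.of_apply, Matrix.of_apply, Matrix.map_apply, map_pow,
    ← frK_apply hq, ← Polynomial.coeff_map, Polynomial.map_mul, Polynomial.map_pow, map_X]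

theorem at_tw (hq : q = p ^ f₀) (M : Matrix κ κ k[X]) (j : ℕ) (r : K) :
    at' (tw K p f₀ M j) (r ^ (q ^ j)) = (M.map (aeval r)).map (fun x => x ^ (q ^ j)) := by
  have hpK : CharP K p := charP_of_injective_algebraMap (algebraMap k K).injective p
  refine Matrix.ext fun a b => ?_
  unfold at' tw
  rw [Matrix.map_apply, Matrix.map_apply, Matrix.map_apply, Matrix.map_apply, coe_evalRingHom,
    eval_map, aeval_def]
  have h1 : ((iterateFrobenius K p (f₀ * j)) : K →+* K)
      ((M a b).eval₂ (algebraMap k K) r) = ((M a b).eval₂ (algebraMap k K) r) ^ (q ^ j) := by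
    rw [iterateFrobenius_def, hq, ← pow_mul]
  rw [← h1, hom_eval₂]
  congr 1
  · refine RingHom.ext fun x => ?_
    rw [frK_apply hq, RingHom.comp_apply, iterateFrobenius_def, hq, ← pow_mul]
  · rw [iterateFrobenius_def, hq, ← pow_mul]

theorem tw_deg (M : Matrix κ κ k[X]) (j : ℕ) (a b : κ) :
    (tw K p f₀ M j a b).natDegree ≤ (M a b).natDegree := by
  unfold tw
  rw [Matrix.map_apply]
  exact natDegree_map_le

/-- a fixed vector from the eigenvalue one of the composite -/
theorem fixed_of_detS (hq : q = p ^ f₀) (hq1 : 1 < q) (hs : 0 < s) (hk : Fintype.card k = q ^ s)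
    (m : ℕ) (M : Matrix κ κ k[X])
    (hdeg : ∀ i j, (M i j).natDegree < (q - 1) * (m + 1))
    (hdet : (mprod (fun j => kmat q m (tw K p f₀ M j)) s).charpolyRev.eval 1 = 0) :
    ∃ w : κ → k[X], w ≠ 0 ∧
      ∀ b, cart q (∑ a, M b a * w a) = (w b).map (iterateFrobenius k p f₀) := by
  classical
  rw [eval_charpolyRev_one] at hdet
  set B := kmat q m M with hB
  have h1 : mprod (fun j => kmat q m (tw K p f₀ M j)) s =
      (mprod (fun j => B.map (fun x => x ^ (q ^ j))) s).map (algebraMap k K) := by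
    rw [mprod_map]
    congr 1
    funext j
    exact kmat_tw hq m M j
  have h2 : (1 - mprod (fun j => B.map (fun x => x ^ (q ^ j))) s).det = 0 := by
    apply (algebraMap k K).injective
    rw [RingHom.map_det, map_zero, ← hdet, h1]
    congr 1
    refine Matrix.ext fun a b => ?_
    rw [RingHom.mapMatrix_apply, Matrix.map_apply, Matrix.sub_apply, Matrix.sub_apply,
      Matrix.map_apply, map_sub, Matrix.one_apply, Matrix.one_apply]
    split_ifs <;> simp
  obtain ⟨v₀, hv0, hv⟩ := Matrix.exists_mulVec_eq_zero_iff.2 h2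
  rw [Matrix.sub_mulVec, Matrix.one_mulVec, sub_eq_zero] at hv
  obtain ⟨v, hvne, hvfix⟩ := descent hq hq1 hs hk B v₀ hv0 hv.symm
  let w : κ → k[X] := fun a => ∑ i : Fin m, C (v (i, a)) * X ^ (i : ℕ)
  have hwc : ∀ a (n : ℕ), (w a).coeff n = if h : n < m then v (⟨n, h⟩, a) else 0 := by
    intro a n
    show (∑ i : Fin m, C (v (i, a)) * X ^ (i : ℕ)).coeff n = _
    rw [finsetSum_coeff]
    simp only [coeff_C_mul, coeff_X_pow]
    split_ifs with h
    · rw [Finset.sum_eq_single (⟨n, h⟩ : Fin m)]
      · simp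
      · intro b _ hb
        rw [if_neg, mul_zero]
        intro h'
        exact hb (Fin.ext h'.symm)
      · intro h'
        exact absurd (Finset.mem_univ _) h'
    · refine Finset.sum_eq_zero fun b _ => ?_
      rw [if_neg, mul_zero]
      intro h'
      exact h (h' ▸ b.2)
  have hwd : ∀ a, (w a).natDegree ≤ m - 1 := by
    intro a
    rw [natDegree_le_iff_coeff_eq_zero]
    intro n hn
    rw [hwc, dif_neg (by omega)]
  refine ⟨w, ?_, ?_⟩
  · intro h
    apply hvne
    funext x
    obtain ⟨i, a⟩ := x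
    have h3 : w a = 0 := congrFun h a
    have h4 : (w a).coeff (i : ℕ) = 0 := by rw [h3, coeff_zero]
    rw [hwc, dif_pos i.2] at h4
    exact h4
  · intro b
    ext n
    rw [coeff_cart (by omega), coeff_map, hwc]
    split_ifs with h
    · have h3 := hvfix (⟨n, h⟩, b)
      rw [iterateFrobenius_def, ← hq, ← h3, Fintype.sum_prod_type, Finset.sum_comm, finsetSum_coeff]
      refine Finset.sum_congr rfl fun a _ => ?_
      show (M b a * ∑ i : Fin m, C (v (i, a)) * X ^ (i : ℕ)).coeff (q * n + (q - 1)) = _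
      rw [Finset.mul_sum, finsetSum_coeff]
      refine Finset.sum_congr rfl fun i _ => ?_
      rw [hB]
      unfold kmat
      rw [Matrix.of_apply]
      have h4 : q * (n + 1) = (q * n + (q - 1)) + 1 := by
        rw [Nat.mul_add]; omega
      show _ = (X ^ ((i : ℕ) + 1) * M b a).coeff (q * (n + 1)) * v (i, a)
      have h5 : (X ^ ((i : ℕ) + 1) * M b a : k[X]) = (X ^ (i : ℕ) * M b a) * X := by ring
      rw [h4, h5, coeff_mul_X]
      have h6 : M b a * (C (v (i, a)) * X ^ (i : ℕ)) = C (v (i, a)) * (X ^ (i : ℕ) * M b a) := by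
        ring
      rw [h6, coeff_C_mul, mul_comm]
    · rw [finsetSum_coeff, map_zero]
      refine Finset.sum_eq_zero fun a _ => ?_
      rcases Nat.eq_zero_or_pos m with hm | hm
      · have hw0 : w a = 0 := by
          ext l
          rw [hwc, dif_neg (by omega), coeff_zero]
        rw [hw0, mul_zero, coeff_zero]
      apply coeff_eq_zero_of_natDegree_lt
      refine natDegree_mul_le.trans_lt ?_
      have h3 := hdeg b a
      have h4 := hwd a
      have h5 : q * m ≤ q * n := Nat.mul_le_mul_left q (by omega)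
      have h6 : (q - 1) * (m + 1) + (m + 1) = q * m + q := by
        rw [← Nat.succ_mul, Nat.succ_eq_add_one, Nat.sub_add_cancel (by omega), Nat.mul_add,
          mul_one]
      omega

end twist

end Pool.Agent.Y709.Lay
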