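import Pool.Agent.Y709.Lay.Fibre
import Pool.Agent.Y709.Lay.Semi
import Pool.Agent.Y709.Lay.Pow
import Pool.Agent.Y709.Gen.GlobG

/-!
The Euler product over a covering of the line and its local factors.
-/

set_option autoImplicit false
set_option linter.unusedSectionVars false

open Polynomial Module

namespace Pool.Agent.Y709.Lay

open Pool.Agent.W313.Hyp Pool.Agent.W343.BSD Pool.Agent.Y709 Pool.Agent.Y709.Gen

section phi

variable {κ : Type} [Fintype κ] [DecidableEq κ]

theorem alg_inv {k A : Type} [Field k] [Field A] [Algebra k A] (i : ℕ) :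
    algebraMap k A (((i : k) + 1)⁻¹) = ((i : A) + 1)⁻¹ := by
  rw [map_inv₀, map_add, map_natCast, map_one]

theorem intg_field {k A : Type} [Field k] [Field A] [Algebra k A] (H : A[X]) :
    intg k H = intg A H := by
  ext i
  rcases i with _ | i
  · rw [coeff_intg_zero, coeff_intg_zero]
  · rw [coeff_intg_succ, coeff_intg_succ, alg_inv, alg_inv]

theorem phi_field {k A : Type} [Field k] [Field A] [Algebra k A] (b : κ → A) (m : κ → ℕ) (o : κ) :
    phi k b m o = phi A b m o := by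
  unfold phi
  refine Matrix.ext fun i j => ?_
  rw [Matrix.of_apply, Matrix.of_apply, intg_field (k := k)]

theorem map_intg' {A B : Type} [Field A] [Field B] (f : A →+* B) (H : A[X]) :
    (intg A H).map f = intg B (H.map f) := by
  ext i
  rw [coeff_map]
  rcases i with _ | i
  · rw [coeff_intg_zero, coeff_intg_zero, map_zero]
  · rw [coeff_intg_succ, coeff_intg_succ, map_mul, alg_inv, alg_inv, map_inv₀, map_add, map_natCast,
      map_one, coeff_map]

theorem map_phi' {A B : Type} [Field A] [Field B] (f : A →+* B) (b : κ → A) (m : κ → ℕ)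
    (o i j : κ) : f (phi A b m o i j) = phi B (fun i => f (b i)) m o i j := by
  unfold phi
  rw [Matrix.of_apply, Matrix.of_apply, map_neg, map_mul, map_natCast, map_sub, ← eval_map_apply,
    ← eval_map_apply, map_intg' f, map_gj]

end phi

section plane

variable {k₀ k : Type} [Field k₀] [Field k] [Algebra k₀ k] {O : Type} [CommRing O] [Algebra k[X] O]
  {R : Type} [CommRing R] {κ : Type} [Fintype κ]

variable (O) in
/-- the Euler product over the covering -/
noncomputable def LO (χ : MulChar k₀ R) (E : k[X]) (b : κ → k[X]) (m : κ → ℕ) : PowerSeries R :=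
  eulerProd (fun z : Σ 𝔪 : MaximalSpectrum O, MI (RO k 𝔪) =>
      finrank k (RO k z.1) * z.2.1.natDegree)
    (fun z => 1 - PowerSeries.C (χ (Algebra.norm k₀ (AdjoinRoot.mk z.2.1
      (fibp (vO k z.1 E) (fun i => vO k z.1 (b i)) m)))) *
      PowerSeries.X ^ (finrank k (RO k z.1) * z.2.1.natDegree))

theorem finrank_ne (𝔪 : MaximalSpectrum O) [FiniteDimensional k (RO k 𝔪)] :
    finrank k (RO k 𝔪) ≠ 0 := (Module.finrank_pos (R := k) (M := RO k 𝔪)).ne'

variable [Finite k] (G : Type) [Group G] [Finite G] [MulSemiringAction G O] [IsGaloisGroup G k[X] O]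

include G in
theorem finrank_ne' (𝔪 : MaximalSpectrum O) : finrank k (RO k 𝔪) ≠ 0 :=
  have := finiteDim_RO (k := k) G 𝔪
  finrank_ne 𝔪

include G in
theorem cover_finite (n : ℕ) :
    {z : Σ 𝔪 : MaximalSpectrum O, MI (RO k 𝔪) |
      finrank k (RO k z.1) * z.2.1.natDegree ≤ n}.Finite := by
  refine sigma_finite (d := fun 𝔪 : MaximalSpectrum O => finrank k (RO k 𝔪))
    (e := fun 𝔪 (Q : MI (RO k 𝔪)) => Q.1.natDegree) (fun n => points_finite (k := k) G n)
    (fun 𝔪 => Nat.pos_of_ne_zero (finrank_ne' G 𝔪)) (fun 𝔪 n => ?_) (fun 𝔪 Q => MI.deg_pos Q) n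
  have h1 := finite_RO (k := k) G 𝔪
  exact finite_deg_le (F := RO k 𝔪) n

include G in
theorem LO_eq (χ : MulChar k₀ R) (E : k[X]) (b : κ → k[X]) (m : κ → ℕ) :
    LO O χ E b m = eulerProd (fun 𝔪 : MaximalSpectrum O => finrank k (RO k 𝔪))
      (fun 𝔪 => PowerSeries.expand (finrank k (RO k 𝔪)) (finrank_ne' G 𝔪)
        (fibG R χ (fibp (vO k 𝔪 E) (fun i => vO k 𝔪 (b i)) m))) := by
  have hdv : ∀ (a : R) (n : ℕ), (PowerSeries.X : PowerSeries R) ^ n ∣
      (1 - PowerSeries.C a * PowerSeries.X ^ n) - 1 := by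
    intro a n
    rw [sub_right_comm, sub_self, zero_sub]
    exact (dvd_neg).2 (dvd_mul_left _ _)
  have hfd : ∀ (𝔪 : MaximalSpectrum O) n, {Q : MI (RO k 𝔪) | Q.1.natDegree ≤ n}.Finite := by
    intro 𝔪 n
    have h1 := finite_RO (k := k) G 𝔪
    exact finite_deg_le (F := RO k 𝔪) n
  unfold LO
  rw [eulerProd_sigma (d := fun 𝔪 : MaximalSpectrum O => finrank k (RO k 𝔪))
    (e := fun 𝔪 (Q : MI (RO k 𝔪)) => Q.1.natDegree)
    (fun n => points_finite (k := k) G n) (fun 𝔪 => Nat.pos_of_ne_zero (finrank_ne' G 𝔪))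
    hfd (fun _ Q => MI.deg_pos Q) _ (fun z => hdv _ _)]
  congr 1
  funext 𝔪
  unfold fibG
  rw [expand_euler (hfd 𝔪) (finrank_ne' G 𝔪) (fun Q => hdv _ _)]
  congr 1
  funext Q
  rw [map_sub, map_one, map_mul, map_pow, PowerSeries.expand_X, PowerSeries.expand_C, ← pow_mul]

end plane

section loc

variable {k₀ k : Type} [Field k₀] [Field k] [Fintype k] [Algebra k₀ k] {O : Type} [CommRing O]
  [Algebra k[X] O] {K : Type} [Field K] [Algebra k K] {p f₀ q s : ℕ} [hp : Fact p.Prime] [CharP k p]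
  {κ : Type} [Fintype κ] [DecidableEq κ]

/-- the local factors of the covering -/
theorem locFS_MG (hq : q = p ^ f₀) (hk : Fintype.card k = q ^ s) (E : k[X]) (b : κ → k[X])
    (m : κ → ℕ) (o : κ) {𝔪 : MaximalSpectrum O} (P : MI k) {r : K} (hr : aeval r P.1 = 0)
    (σ : RO k 𝔪 →ₐ[k] K) (hσ : σ (vO k 𝔪 X) = r) (f : ℕ) :
    (mprod (fun j => ((vO k 𝔪 E) ^ (q ^ j)) • phi k₀ (cjb q (fun i => vO k 𝔪 (b i)) j) m o)
      (f * (P.1.natDegree * s))).charpolyRev.map (σ : RO k 𝔪 →+* K) =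
      ((locS (MonoidHom.id K) q (tw K p f₀ (MG E b m o)) r (P.1.natDegree * s)) ^ f).charpolyRev := by
  have hpK : CharP K p := charP_of_injective_algebraMap (algebraMap k K).injective p
  rw [map_charpolyRev]
  congr 1
  have hper : ∀ j, tw K p f₀ (MG E b m o) (j + s) = tw K p f₀ (MG E b m o) j := tw_per hq hk _
  unfold locS
  set F : ℕ → Matrix κ κ K := fun j => at' (tw K p f₀ (MG E b m o) j) ((MonoidHom.id K) r ^ (q ^ j))
    with hF
  have hFper : ∀ j, F (j + P.1.natDegree * s) = F j := by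
    intro j
    rw [hF]
    show at' _ _ = at' _ _
    rw [per_mul hper]
    congr 1
    have h2 : q ^ (j + P.1.natDegree * s) = Nat.card k ^ P.1.natDegree * q ^ j := by
      rw [Nat.card_eq_fintype_card, hk, ← pow_mul, ← pow_add]
      congr 1
      ring
    show r ^ _ = r ^ _
    rw [h2, pow_mul, root_pow P hr dvd_rfl]
  rw [← mprod_mul hFper, mprod_map]
  congr 1
  funext j
  have h2 : ∀ g : k[X], σ (vO k 𝔪 g) = aeval r g := by
    intro g
    rw [vO_eq_aeval, ← Polynomial.aeval_algHom_apply, hσ]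
  have h4 : ∀ j, ((iterateFrobenius K p (f₀ * j)) : K →+* K) = (iterateFrobenius K p (f₀ * j)) :=
    fun _ => rfl
  have hfr : ∀ x : K, iterateFrobenius K p (f₀ * j) x = x ^ (q ^ j) := by
    intro x
    rw [iterateFrobenius_def, hq, ← pow_mul]
  rw [hF]
  show _ = at' (tw K p f₀ (MG E b m o) j) (r ^ (q ^ j))
  rw [at_tw hq]
  refine Matrix.ext fun x y => ?_
  rw [Matrix.map_apply, Matrix.map_apply, Matrix.map_apply, Matrix.smul_apply, smul_eq_mul, map_mul,
    map_pow, phi_field (k := k₀)]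
  unfold MG
  rw [Matrix.of_apply, map_mul, mul_pow]
  have h5 : (σ : RO k 𝔪 →+* K) (vO k 𝔪 E) = aeval r E := h2 E
  rw [h5]
  congr 1
  rw [map_phi' (σ : RO k 𝔪 →+* K), ← hfr]
  have h8 := map_phi k ((aeval r : k[X] →ₐ[k] K) : k[X] →+* K)
    (fun a => (aeval r : k[X] →ₐ[k] K).commutes a) b m o x y
  have h9 : ((aeval r : k[X] →ₐ[k] K) : k[X] →+* K) (phi k b m o x y) =
    aeval r (phi k b m o x y) := rfl
  rw [← h9, h8, phi_field (k := k), map_phi' (iterateFrobenius K p (f₀ * j))]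
  congr 1
  funext i
  rw [hfr]
  unfold cjb
  rw [map_pow]
  congr 1
  exact h2 (b i)

end loc

end Pool.Agent.Y709.Lay
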