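import Pool.Agent.Y709.Lay.GlobA

/-!
The functional equation over a covering of the line and its reduction.
-/

set_option autoImplicit false
set_option linter.unusedSectionVars false

open Polynomial Module

namespace Pool.Agent.Y709.Lay

open Pool.Agent.W313.Hyp Pool.Agent.W343.BSD Pool.Agent.Y709 Pool.Agent.Y709.Gen

section zero

variable {k : Type} [Field k] [Fintype k] {K : Type} [Field K] [Algebra k K] {p f₀ q s : ℕ}
  [hp : Fact p.Prime] [CharP k p] {κ : Type} [Fintype κ] [DecidableEq κ]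

theorem charpolyRev_zero' {K : Type} [Field K] : (0 : Matrix κ κ K).charpolyRev = 1 := by
  unfold Matrix.charpolyRev
  have h1 : ((0 : Matrix κ κ K).map C : Matrix κ κ K[X]) = 0 := by
    refine Matrix.ext fun i j => ?_
    rw [Matrix.map_apply, Matrix.zero_apply, Matrix.zero_apply, C_0]
  rw [h1, smul_zero, sub_zero, Matrix.det_one]

/-- the factor at a zero of `E` -/
theorem locFS_of_dvd (hq : q = p ^ f₀) (hs : 0 < s) (E : k[X]) (b : κ → k[X]) (m : κ → ℕ) (o : κ)
    (P : MI k) {r : K} (hr : aeval r P.1 = 0) (hE : P.1 ∣ E) :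
    locFS (MonoidHom.id K) q s (tw K p f₀ (MG E b m o)) r P.1.natDegree (deg_ne P) = 1 := by
  have hq0 : 0 < q := by rw [hq]; exact pow_pos hp.out.pos f₀
  have hE0 : aeval r E = 0 := by
    obtain ⟨c, rfl⟩ := hE
    rw [map_mul, hr, zero_mul]
  have h1 : locS (MonoidHom.id K) q (tw K p f₀ (MG E b m o)) r (P.1.natDegree * s) = 0 := by
    unfold locS
    obtain ⟨n, hn⟩ : ∃ n, P.1.natDegree * s = n + 1 :=
      ⟨P.1.natDegree * s - 1, by have := Nat.mul_pos (MI.deg_pos P) hs; omega⟩
    rw [hn, mprod_succ]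
    have h2 : at' (tw K p f₀ (MG E b m o) n) ((MonoidHom.id K) r ^ q ^ n) = 0 := by
      show at' (tw K p f₀ (MG E b m o) n) (r ^ q ^ n) = 0
      rw [at_tw hq]
      refine Matrix.ext fun x y => ?_
      rw [Matrix.map_apply, Matrix.map_apply, Matrix.zero_apply]
      unfold MG
      rw [Matrix.of_apply, map_mul, hE0, zero_mul, zero_pow (pow_pos hq0 n).ne']
    rw [h2, zero_mul]
  unfold locFS
  rw [h1, charpolyRev_zero', Polynomial.coe_one, map_one]

end zero

section glob

variable {k₀ k R K : Type} [Field k₀] [Fintype k₀] [Field k] [Fintype k] [Algebra k₀ k]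
  [CommRing R] [IsDomain R] [CharZero R] [Field K] [Algebra k K] [IsAlgClosed K]
  [Algebra.IsAlgebraic k K] (π : R →+* K)
  (hu : ∀ r : R, π r ≠ 0 → IsUnit r) (χ : MulChar k₀ R)
  (hχ : ∀ u : k₀, π (χ u) = algebraMap k K (algebraMap k₀ k u))
  {κ : Type} [Fintype κ] [DecidableEq κ]
  {O : Type} [CommRing O] [Algebra k[X] O] (G : Type) [Group G] [Finite G]
  [MulSemiringAction G O] [IsGaloisGroup G k[X] O] [FaithfulSMul k[X] O]

include hu hχ in
/-- the functional equation over the covering and its reduction -/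
theorem global_feS {p f₀ q s n d g : ℕ} [hp : Fact p.Prime] [CharP k p] (hq : q = p ^ f₀)
    (hf₀ : 0 < f₀) (hk₀ : Fintype.card k₀ = q) (hs : 0 < s) (hk : Fintype.card k = q ^ s)
    (h5 : 5 ≤ q) (hG : Nat.card G = p ^ g) (E : k[X]) (b : κ → k[X])
    (hb : ∀ i, (b i).natDegree ≤ d) {m : κ → ℕ} (hm : ∀ i, 0 < m i)
    (hmq : ∑ i, m i < q - 1) (hinv : ∀ i : ℕ, i < ∑ l, m l → ((i : k₀) + 1) ≠ 0) (o : κ)
    (hn : E.natDegree + d * ∑ i, m i < (q - 1) * (n + 1))
    (hun : ∀ 𝔪 : MaximalSpectrum O, vO k 𝔪 E ≠ 0 → 𝔪.asIdeal.inertia G = ⊥) :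
    ∃ L : PowerSeries R, LO O χ E b m * PowerSeries.rescale ((q : R) ^ s) L = 1 ∧
      PowerSeries.map π L *
        ((mprod (fun j => kmat q n (tw K p f₀ (MG E b m o) j)) s).charpolyRev :
          PowerSeries K) ^ (Nat.card G) = 1 := by
  classical
  have hfin := fun n => points_finite (k := k) (O := O) G n
  have hfink := fun n => finite_deg_le (F := k) n
  have hroot := fun P : MI k => exists_root_MI (K := K) P
  choose ρ hρ using hroot
  have hfd : ∀ 𝔪 : MaximalSpectrum O, FiniteDimensional k (RO k 𝔪) := fun 𝔪 => finiteDim_RO G 𝔪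
  have hpK : CharP K p := charP_of_injective_algebraMap (algebraMap k K).injective p
  -- the local factors
  have hloc : ∀ 𝔪 : MaximalSpectrum O, ∃ Q : R[X], Q.coeff 0 = 1 ∧
      fibG R χ (fibp (vO k 𝔪 E) (fun i => vO k 𝔪 (b i)) m) *
        PowerSeries.rescale (((q : R) ^ s) ^ (finrank k (RO k 𝔪))) (Q : PowerSeries R) = 1 ∧
      PowerSeries.expand (finrank k (RO k 𝔪)) (finrank_ne' G 𝔪) ((Q.map π : K[X]) : PowerSeries K) =
        (locFS (MonoidHom.id K) q s (tw K p f₀ (MG E b m o)) (ρ (pt (k := k) 𝔪))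
          (pt (k := k) 𝔪).1.natDegree (deg_ne _)) ^ (𝔪.asIdeal.inertiaDeg k[X]) := by
    intro 𝔪
    have hfi : Finite (RO k 𝔪) := finite_RO (k := k) G 𝔪
    have hFt : Fintype (RO k 𝔪) := Fintype.ofFinite _
    have hfin0 : Finite k₀ := inferInstance
    have hmf : Module.Finite k₀ (RO k 𝔪) := Module.Finite.of_finite
    set P := pt (k := k) 𝔪 with hP
    set f := 𝔪.asIdeal.inertiaDeg k[X] with hf
    have hfr : finrank k (RO k 𝔪) = P.1.natDegree * f := finrank_RO (k := k) G 𝔪
    have hfpos : 0 < f := inertiaDeg_pos (k := k) G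
    have hFc : Fintype.card (RO k 𝔪) = q ^ (f * (P.1.natDegree * s)) := by
      have h1 := Module.card_eq_pow_finrank (K := k) (V := RO k 𝔪)
      rw [h1, hk, hfr, ← pow_mul]
      congr 1
      ring
    have hFp : CharP (RO k 𝔪) p :=
      charP_of_injective_algebraMap (algebraMap k (RO k 𝔪)).injective p
    obtain ⟨σ, hσ⟩ := exists_emb (k := k) (𝔪 := 𝔪) (P := P) rfl (hρ P)
    obtain ⟨Q, h0, h1, h2⟩ := fibre_feG π (σ : RO k 𝔪 →+* K) χ (fun u => by
        rw [hχ]
        exact (σ.commutes (algebraMap k₀ k u)).symm) hu hq hf₀ hk₀ h5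
      (Nat.mul_pos hfpos (Nat.mul_pos (MI.deg_pos P) hs)) hFc hm hmq hinv (vO k 𝔪 E)
      (fun i => vO k 𝔪 (b i)) o
    refine ⟨Q, h0, ?_, ?_⟩
    · have h3 : ((q : R) ^ s) ^ (finrank k (RO k 𝔪)) = (q : R) ^ (f * (P.1.natDegree * s)) := by
        rw [← pow_mul, hfr]
        congr 1
        ring
      rw [h3]
      exact h1
    · rw [h2, locFS_MG hq hk E b m o P (hρ P) σ hσ f]
      exact expand_pow_charpolyRev (p := p) _ (deg_ne P) (finrank_ne' G 𝔪)
        (inertiaDeg_pow (k := k) G hp.out hG 𝔪) hfr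
  choose Q hQ0 hQ1 hQ2 using hloc
  have hQc : ∀ 𝔪, PowerSeries.constantCoeff (Q 𝔪 : PowerSeries R) = 1 := by
    intro 𝔪
    rw [← PowerSeries.coeff_zero_eq_constantCoeff_apply, Polynomial.coeff_coe, hQ0]
  refine ⟨eulerProd (fun 𝔪 : MaximalSpectrum O => finrank k (RO k 𝔪))
    (fun 𝔪 => PowerSeries.expand (finrank k (RO k 𝔪)) (finrank_ne' G 𝔪)
      (Q 𝔪 : PowerSeries R)), ?_, ?_⟩
  · rw [rescale_euler hfin, LO_eq G, ← eulerProd_mul hfin]
    · have h1 : (fun 𝔪 : MaximalSpectrum O => PowerSeries.expand (finrank k (RO k 𝔪))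
          (finrank_ne' G 𝔪) (fibG R χ (fibp (vO k 𝔪 E) (fun i => vO k 𝔪 (b i)) m)) *
            PowerSeries.rescale ((q : R) ^ s) (PowerSeries.expand (finrank k (RO k 𝔪))
              (finrank_ne' G 𝔪) (Q 𝔪 : PowerSeries R))) = fun _ => 1 := by
        funext 𝔪
        rw [rescale_expand, ← map_mul, hQ1, map_one]
      rw [h1]
      exact eulerProd_one
    · intro 𝔪
      apply expand_mod
      have h1 := congrArg PowerSeries.constantCoeff (hQ1 𝔪)
      rw [map_mul, map_one] at h1
      have h2 : PowerSeries.constantCoeff (PowerSeries.rescale (((q : R) ^ s) ^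
          (finrank k (RO k 𝔪))) (Q 𝔪 : PowerSeries R)) = 1 := by
        rw [← PowerSeries.coeff_zero_eq_constantCoeff_apply, PowerSeries.coeff_rescale, pow_zero,
          one_mul, PowerSeries.coeff_zero_eq_constantCoeff_apply, hQc]
      rwa [h2, mul_one] at h1
    · intro 𝔪
      rw [rescale_expand]
      apply expand_mod
      rw [← PowerSeries.coeff_zero_eq_constantCoeff_apply, PowerSeries.coeff_rescale, pow_zero,
          one_mul, PowerSeries.coeff_zero_eq_constantCoeff_apply, hQc]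
  · rw [map_eulerProd hfin]
    set φ : MI k → PowerSeries K := fun P => locFS (MonoidHom.id K) q s (tw K p f₀ (MG E b m o))
      (ρ P) P.1.natDegree (deg_ne P) with hφ
    have hφ1 : ∀ P : MI k, (PowerSeries.X : PowerSeries K) ^ P.1.natDegree ∣ φ P - 1 :=
      fun P => locFS_mod _ _ _ _ _ _ _
    have hpow : ∀ (P : MI k) (n : ℕ), (PowerSeries.X : PowerSeries K) ^ P.1.natDegree ∣
        φ P ^ n - 1 := by
      intro P n
      induction n with
      | zero => rw [pow_zero, sub_self]; exact dvd_zero _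
      | succ n ih =>
        rw [pow_succ]
        exact one_mod_mul ih (hφ1 P)
    have h1 : (fun 𝔪 : MaximalSpectrum O => PowerSeries.map π (PowerSeries.expand
        (finrank k (RO k 𝔪)) (finrank_ne' G 𝔪) (Q 𝔪 : PowerSeries R))) =
        fun 𝔪 => φ (pt (k := k) 𝔪) ^ (𝔪.asIdeal.inertiaDeg k[X]) := by
      funext 𝔪
      rw [PowerSeries.map_expand, ← Polynomial.polynomial_map_coe, hQ2]
    have hmod : ∀ 𝔪 : MaximalSpectrum O, (PowerSeries.X : PowerSeries K) ^
        (finrank k (RO k 𝔪)) ∣ φ (pt (k := k) 𝔪) ^ (𝔪.asIdeal.inertiaDeg k[X]) - 1 := by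
      intro 𝔪
      have h2 := congrFun h1 𝔪
      rw [← h2, PowerSeries.map_expand]
      apply expand_mod
      rw [← Polynomial.polynomial_map_coe, ← PowerSeries.coeff_zero_eq_constantCoeff_apply,
        Polynomial.coeff_coe, Polynomial.coeff_map, hQ0, map_one]
    have h3 : eulerProd (fun P : MI k => P.1.natDegree) (fun P => ∏ 𝔪 ∈
        (above_finite (O := O) G P).toFinset,
          φ (pt (k := k) 𝔪) ^ (𝔪.asIdeal.inertiaDeg k[X])) =
        eulerProd (fun 𝔪 : MaximalSpectrum O => finrank k (RO k 𝔪))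
          (fun 𝔪 => φ (pt (k := k) 𝔪) ^ (𝔪.asIdeal.inertiaDeg k[X])) := by
      refine eulerProd_fiber hfink hfin hmod
        (fun P => (above_finite (O := O) G P).toFinset) ?_ ?_ ?_
      · intro 𝔪
        refine ⟨pt (k := k) 𝔪, ?_⟩
        rw [Set.Finite.mem_toFinset]
        rfl
      · intro P P' 𝔪 h h'
        rw [Set.Finite.mem_toFinset] at h h'
        have e1 : minpoly k (vO k 𝔪 X) = P.1 := h
        have e2 : minpoly k (vO k 𝔪 X) = P'.1 := h'
        exact Subtype.ext (e1.symm.trans e2)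
      · intro P 𝔪 h
        rw [Set.Finite.mem_toFinset] at h
        have e1 : (pt (k := k) 𝔪).1 = P.1 := h
        show P.1.natDegree ≤ _
        rw [finrank_RO (k := k) G 𝔪, e1]
        exact Nat.le_mul_of_pos_right _ (inertiaDeg_pos (k := k) G)
    have h4 : (fun P : MI k => ∏ 𝔪 ∈ (above_finite (O := O) G P).toFinset,
          φ (pt (k := k) 𝔪) ^ (𝔪.asIdeal.inertiaDeg k[X])) = fun P => φ P ^ (Nat.card G) := by
      funext P
      have e0 : ∀ 𝔪 ∈ (above_finite (O := O) G P).toFinset,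
          φ (pt (k := k) 𝔪) ^ (𝔪.asIdeal.inertiaDeg k[X]) =
            φ P ^ (𝔪.asIdeal.inertiaDeg k[X]) := by
        intro 𝔪 h
        rw [Set.Finite.mem_toFinset] at h
        have e1 : pt (k := k) 𝔪 = P := Subtype.ext h
        rw [e1]
      rw [Finset.prod_congr rfl e0, Finset.prod_pow_eq_pow_sum]
      by_cases hE : P.1 ∣ E
      · have e1 : φ P = 1 := locFS_of_dvd hq hs E b m o P (hρ P) hE
        rw [e1, one_pow, one_pow]
      · rw [sum_inertiaDeg (O := O) G P]
        intro 𝔪 h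
        apply hun
        intro h0
        rw [vO_zero_iff] at h0
        have e1 : (pt (k := k) 𝔪).1 = P.1 := h
        rw [e1] at h0
        exact hE h0
    have h5' : eulerProd (fun P : MI k => P.1.natDegree) (fun P => φ P ^ (Nat.card G)) =
        (eulerProd (fun P : MI k => P.1.natDegree) φ) ^ (Nat.card G) := by
      have e1 := eulerProd_prod hfink (Finset.range (Nat.card G)) (fun _ P => φ P)
        (fun _ P => hφ1 P)
      simp only [Finset.prod_const, Finset.card_range] at e1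
      exact e1
    rw [h1, ← h3, h4, h5', ← mul_pow]
    have h6 := formula_modS (k := k) (K := K) (m := n) hs (by omega)
      (by rw [Nat.card_eq_fintype_card, hk]) (tw K p f₀ (MG E b m o)) (tw_per hq hk _)
      (fun j x y => (tw_deg (MG E b m o) j x y).trans_lt
        ((natDegree_MG E hb hm o x y).trans_lt hn)) ρ hρ
    rw [h6, one_pow]

end glob

end Pool.Agent.Y709.Lay
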