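import Pool.Agent.Y709.Lay.GlobB
import Pool.Agent.Y709.Gen.Bound
import Mathlib.RingTheory.Norm.Transitivity
import Mathlib.FieldTheory.Finite.GaloisField
import Mathlib.GroupTheory.PGroup

/-!
Vanishing over a covering and the fixed vectors.
-/

set_option autoImplicit false
set_option linter.unusedSectionVars false

open Polynomial Module

namespace Pool.Agent.Y709.Lay

open Pool.Agent.W313.Hyp Pool.Agent.W343.BSD Pool.Agent.Y709 Pool.Agent.Y709.Gen

section fix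

variable {k₀ k : Type} [Field k₀] [Fintype k₀] [Field k] [Fintype k] [Algebra k₀ k]
  {p f₀ q s : ℕ} [hp : Fact p.Prime] [CharP k p]
  {O : Type} [CommRing O] [Algebra k[X] O] (G : Type) [Group G] [Finite G]
  [MulSemiringAction G O] [IsGaloisGroup G k[X] O] [FaithfulSMul k[X] O]

include G in
/-- vanishing over the covering gives a fixed vector -/
theorem fixed_of_vanishL (hq : q = p ^ f₀) (hf₀ : 0 < f₀) (hk₀ : Fintype.card k₀ = q) (hs : 0 < s)
    (hk : Fintype.card k = q ^ s) (h5 : 5 ≤ q) (hG : IsPGroup p G)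
    (χ : MulChar k₀ ℂ) (hχ : orderOf χ = q - 1) {κ : Type} [Fintype κ] [DecidableEq κ]
    (E : k[X]) (b : κ → k[X]) {m : κ → ℕ} (hm : ∀ i, 0 < m i) (hmq : ∑ i, m i < q - 1)
    (hinv : ∀ i : ℕ, i < ∑ l, m l → ((i : k₀) + 1) ≠ 0) (o : κ)
    (hun : ∀ 𝔪 : MaximalSpectrum O, vO k 𝔪 E ≠ 0 → 𝔪.asIdeal.inertia G = ⊥) (H : ℂ[X])
    (hH : LO O χ E b m =
      (((1 - C (((q ^ s : ℕ)) : ℂ) * X) * H : ℂ[X]) : PowerSeries ℂ)) :
    ∃ w : κ → k[X], w ≠ 0 ∧
      ∀ i, cart q (∑ j, E * phi k b m o i j * w j) = (w i).map (iterateFrobenius k p f₀) := by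
  obtain ⟨g, hg⟩ := IsPGroup.iff_card.1 hG
  let K := AlgebraicClosure k
  have hpK : CharP K p := charP_of_injective_algebraMap (algebraMap k K).injective p
  have hpk₀ : CharP k₀ p := (algebraMap k₀ k).charP (algebraMap k₀ k).injective p
  have hc0 := witt_charZero p K
  obtain ⟨H', hH'⟩ := transfer χ (by rw [hχ, hk₀]) (teichChar (k := k₀) p K)
    (orderOf_teichChar p K) _ (cover_finite (k := k) G)
    (fun z : Σ 𝔪 : MaximalSpectrum O, MI (RO k 𝔪) => Algebra.norm k₀ (AdjoinRoot.mk z.2.1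
      (fibp (vO k z.1 E) (fun i => vO k z.1 (b i)) m))) (q ^ s) H hH
  set d := ∑ i, (b i).natDegree with hd
  have hb : ∀ i, (b i).natDegree ≤ d := fun i =>
    Finset.single_le_sum (f := fun i => (b i).natDegree) (fun _ _ => Nat.zero_le _)
      (Finset.mem_univ i)
  set e := E.natDegree + d * ∑ i, m i with he
  have hn : e < (q - 1) * (e + 1) := by
    have h1 : 1 * (e + 1) ≤ (q - 1) * (e + 1) := Nat.mul_le_mul_right _ (by omega)
    omega
  obtain ⟨L, h1, h2⟩ := global_feS (k₀ := k₀) (k := k) (K := K)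
    (WittVector.constantCoeff (p := p) (R := K))
    (fun r hr => WittVector.isUnit_of_coeff_zero_ne_zero r hr) (teichChar (k := k₀) p K)
    (fun u => by
      rw [teichChar_apply, IsScalarTower.algebraMap_apply k₀ k K]
      exact coeff_teich p K _) G hq hf₀ hk₀ hs hk h5 hg E b hb hm hmq hinv o hn hun
  rw [← Polynomial.coe_pow] at h2
  have h3 := eval_of_fe (WittVector.constantCoeff (p := p) (R := K)) (q := q ^ s)
    (pow_ne_zero _ (by omega)) (by rw [Nat.cast_pow]; exact h1) h2 H' hH'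
  rw [eval_pow] at h3
  have h4 := eq_zero_of_pow_eq_zero h3
  exact fixed_of_detS hq (by omega) hs hk e (MG E b m o)
    (fun i j => (natDegree_MG E hb hm o i j).trans_lt hn) h4

include G in
/-- vanishing over the covering gives a fixed vector of the minor -/
theorem fixed_minorL {r : ℕ} (hq : q = p ^ f₀) (hf₀ : 0 < f₀) (hk₀ : Fintype.card k₀ = q)
    (hs : 0 < s) (hk : Fintype.card k = q ^ s) (h5 : 5 ≤ q) (hG : IsPGroup p G)
    (χ : MulChar k₀ ℂ) (hχ : orderOf χ = q - 1) (B : k[X]) (b : Fin (r + 1) → k[X])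
    (m : Fin (r + 1) → ℕ) (hm : ∀ i, 0 < m i) (hmq : ∑ i, m i < q - 1)
    (hinv : ∀ i : ℕ, i < ∑ l, m l → ((i : k₀) + 1) ≠ 0) (D : k[X])
    (hun : ∀ 𝔪 : MaximalSpectrum O, vO k 𝔪 (D * B) ≠ 0 → 𝔪.asIdeal.inertia G = ⊥) (H : ℂ[X])
    (hH : LO O χ (D * B) b m =
      (((1 - C (((q ^ s : ℕ)) : ℂ) * X) * H : ℂ[X]) : PowerSeries ℂ)) :
    ∃ w : Fin r → k[X], w ≠ 0 ∧
      ∀ i, cart q (D * ∑ j, minor B b m i j * w j) = (w i).map (iterateFrobenius k p f₀) := by
  obtain ⟨w, hw0, hw⟩ := fixed_of_vanishL G hq hf₀ hk₀ hs hk h5 hG χ hχ (D * B) b hm hmq hinv 0 hun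
    H hH
  have hw00 : w 0 = 0 := by
    have h8 : ∑ j, D * B * phi k b m 0 0 j * w j = 0 := by
      refine Finset.sum_eq_zero fun j _ => ?_
      rw [phi_row k _ _ rfl, mul_zero, zero_mul]
    have h9 := hw 0
    rw [h8, cart_zero (by omega)] at h9
    exact (Polynomial.map_eq_zero _).1 h9.symm
  refine ⟨fun i => w i.succ, ?_, ?_⟩
  · intro h9
    apply hw0
    funext i
    refine Fin.cases hw00 (fun i => ?_) i
    exact congrFun h9 i
  · intro i
    show cart q (D * ∑ j, minor B b m i j * w j.succ) = _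
    refine Eq.trans ?_ (hw i.succ)
    have h10 : D * ∑ j : Fin r, minor B b m i j * w j.succ =
        ∑ j : Fin (r + 1), D * B * phi k b m 0 i.succ j * w j := by
      rw [Fin.sum_univ_succ, hw00, mul_zero, zero_add, Finset.mul_sum]
      refine Finset.sum_congr rfl fun j _ => ?_
      unfold minor
      rw [Matrix.of_apply]
      ring
    rw [h10]

end fix

section resc

variable {k₀ k : Type} [Field k₀] [Field k] [Finite k] [Algebra k₀ k] {O : Type} [CommRing O]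
  [Algebra k[X] O] {R : Type} [CommRing R] {κ : Type} [Fintype κ]

theorem norm_mk_C_mulL (𝔪 : MaximalSpectrum O) [FiniteDimensional k (RO k 𝔪)] (Q : MI (RO k 𝔪))
    (u : k) (g : (RO k 𝔪)[X]) :
    Algebra.norm k₀ (AdjoinRoot.mk Q.1 (C (vO k 𝔪 (C u)) * g)) =
      (Algebra.norm k₀ u) ^ (finrank k (RO k 𝔪) * Q.1.natDegree) *
        Algebra.norm k₀ (AdjoinRoot.mk Q.1 g) := by
  rw [map_mul, map_mul]
  congr 1
  have hf : Fact (Irreducible Q.1) := ⟨Q.2.2⟩
  have hfd : FiniteDimensional (RO k 𝔪) (AdjoinRoot Q.1) := Q.2.1.finite_adjoinRoot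
  have hfd2 : FiniteDimensional k (AdjoinRoot Q.1) := FiniteDimensional.trans k (RO k 𝔪) _
  have h1 : AdjoinRoot.mk Q.1 (C (vO k 𝔪 (C u))) = algebraMap k (AdjoinRoot Q.1) u := rfl
  rw [h1, ← Algebra.norm_norm (R := k₀) (S := k), Algebra.norm_algebraMap, map_pow]
  congr 1
  rw [← Module.finrank_mul_finrank k (RO k 𝔪) (AdjoinRoot Q.1)]
  have h3 := (AdjoinRoot.powerBasis Q.2.1.ne_zero).finrank
  rw [AdjoinRoot.powerBasis_dim] at h3
  rw [← h3]

variable (G : Type) [Group G] [Finite G] [MulSemiringAction G O] [IsGaloisGroup G k[X] O]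

include G in
theorem LO_C_mul (χ : MulChar k₀ R) (u : k) (E : k[X]) (b : κ → k[X]) (m : κ → ℕ) :
    LO O χ (C u * E) b m = PowerSeries.rescale (χ (Algebra.norm k₀ u)) (LO O χ E b m) := by
  unfold LO
  rw [rescale_euler (cover_finite (k := k) G)]
  congr 1
  funext z
  have hfd := finiteDim_RO (k := k) G z.1
  have h1 : fibp (vO k z.1 (C u * E)) (fun i => vO k z.1 (b i)) m =
      C (vO k z.1 (C u)) * fibp (vO k z.1 E) (fun i => vO k z.1 (b i)) m := by
    unfold fibp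
    rw [map_mul, C_mul, mul_assoc]
  have h3 : ∀ a : R, PowerSeries.rescale (χ (Algebra.norm k₀ u)) (PowerSeries.C a) =
      PowerSeries.C a := by
    intro a
    ext n
    rw [PowerSeries.coeff_rescale, PowerSeries.coeff_C]
    split_ifs with h
    · rw [h, pow_zero, one_mul]
    · rw [mul_zero]
  rw [h1, norm_mk_C_mulL, map_mul χ, map_pow χ, map_sub, map_one,
    map_mul (PowerSeries.rescale _), map_pow (PowerSeries.rescale _), PowerSeries.rescale_X, mul_pow,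
    h3, map_mul, ← map_pow PowerSeries.C]
  ring

end resc

section count

/-- a function over a covering of degree a power of `p` that is unramified outside the zeros of `E`
vanishes at a point with `(q ^ s T) ^ e = 1` -/
def VanL (k₀ : Type) [Field k₀] {k : Type} [Field k] [Algebra k₀ k] (p q s e : ℕ) {κ : Type}
    [Fintype κ] (E : k[X]) (b : κ → k[X]) (m : κ → ℕ) : Prop :=
  ∃ (G O : Type) (_ : Group G) (_ : Finite G) (_ : CommRing O) (_ : Algebra k[X] O)
    (_ : MulSemiringAction G O) (_ : IsGaloisGroup G k[X] O) (_ : FaithfulSMul k[X] O),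
    IsPGroup p G ∧ (∀ 𝔪 : MaximalSpectrum O, vO k 𝔪 E ≠ 0 → 𝔪.asIdeal.inertia G = ⊥) ∧
    ∃ χ : MulChar k₀ ℂ, orderOf χ = q - 1 ∧ ∃ ζ : ℂ, ζ ^ e = 1 ∧ ∃ H : ℂ[X],
      LO O χ E b m = (((1 - C (((q ^ s : ℕ) : ℂ) * ζ) * X) * H : ℂ[X]) : PowerSeries ℂ)

variable {k₀ k : Type} [Field k₀] [Fintype k₀] [Field k] [Fintype k] [Algebra k₀ k]
  {p f₀ q s r : ℕ} [hp : Fact p.Prime] [CharP k p]

/-- **the twists with a zero over some covering, up to constants, have a fixed vector** -/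
theorem sub_of_vanL (hq : q = p ^ f₀) (hf₀ : 0 < f₀) (hk₀ : Fintype.card k₀ = q)
    (hs : 0 < s) (hk : Fintype.card k = q ^ s) (h5 : 5 ≤ q) (B : k[X]) (b : Fin (r + 1) → k[X])
    (m : Fin (r + 1) → ℕ) (hm : ∀ i, 0 < m i) (hmq : ∑ i, m i < q - 1)
    (hinv : ∀ i : ℕ, i < ∑ l, m l → ((i : k₀) + 1) ≠ 0) (N e : ℕ) (he : e ∣ q - 1) :
    ∃ S : Finset k, S.card ≤ e ∧ (∀ u ∈ S, u ≠ 0) ∧
    {D : k[X] | D.natDegree ≤ N ∧ VanL k₀ p q s e (D * B) b m} ⊆
      ⋃ u ∈ S, (fun D => C u * D) '' {D : k[X] | D.natDegree ≤ N ∧ ∃ w : Fin r → k[X], w ≠ 0 ∧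
        ∀ i, cart q (D * ∑ j, minor B b m i j * w j) = (w i).map (iterateFrobenius k p f₀)} := by
  classical
  have hq1 : 0 < q - 1 := by omega
  have hnz : NeZero (q - 1) := ⟨hq1.ne'⟩
  have he0 : 0 < e := Nat.pos_of_dvd_of_pos he hq1
  set S₀ : Finset k₀ := (Polynomial.nthRoots e (1 : k₀)).toFinset with hS₀
  have hSc : S₀.card ≤ e := (Multiset.toFinset_card_le _).trans (card_nthRoots e 1)
  have hsurj := FiniteField.norm_surjective k₀ k
  choose ν hν using hsurj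
  have hS₀0 : ∀ a ∈ S₀, a ≠ 0 := by
    intro a ha h
    rw [hS₀, Multiset.mem_toFinset, Polynomial.mem_nthRoots he0, h, zero_pow he0.ne'] at ha
    exact zero_ne_one ha
  have hν0 : ∀ a : k₀, a ≠ 0 → ν a ≠ 0 := by
    intro a ha h
    apply ha
    rw [← hν a, h, Algebra.norm_zero]
  refine ⟨S₀.image ν, Finset.card_image_le.trans hSc, ?_, ?_⟩
  · intro u hu
    obtain ⟨a, ha, rfl⟩ := Finset.mem_image.1 hu
    exact hν0 a (hS₀0 a ha)
  rintro D ⟨hD, G, O, i1, i2, i3, i4, i5, i6, i7, hG, hun, χ, hχ, ζ, hζ, H, hH⟩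
  obtain ⟨g, hg⟩ := IsCyclic.exists_generator (α := k₀ˣ)
  have hprim := prim_of_order χ hq1 hχ hg
  have hζ0 : ζ ≠ 0 := by
    intro h
    rw [h, zero_pow he0.ne'] at hζ
    exact zero_ne_one hζ
  have hζ' : ζ ^ (q - 1) = 1 := by
    obtain ⟨c, hc⟩ := he
    rw [hc, pow_mul, hζ, one_pow]
  obtain ⟨i, _, hi⟩ := hprim.eq_pow_of_pow_eq_one hζ'
  have hgq : ((g : k₀)) ^ (i * e) = 1 := by
    have h6 : (χ (g : k₀)) ^ (i * e) = 1 := by rw [pow_mul, hi, hζ]
    have h7 := hprim.dvd_of_pow_eq_one _ h6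
    obtain ⟨c, hc⟩ := h7
    rw [hc, pow_mul, ← hk₀, FiniteField.pow_card_sub_one_eq_one _ g.ne_zero, one_pow]
  set a : k₀ := (g : k₀) ^ i with ha
  have ha0 : a ≠ 0 := pow_ne_zero _ g.ne_zero
  set u : k := ν a with hu
  have hu0 : u ≠ 0 := hν0 a ha0
  have huN : Algebra.norm k₀ u = a := hν a
  rw [Set.mem_iUnion₂]
  refine ⟨u, Finset.mem_image.2 ⟨a, ?_, rfl⟩, C (u⁻¹) * D, ?_, ?_⟩
  · rw [hS₀, Multiset.mem_toFinset, Polynomial.mem_nthRoots he0, ha, ← pow_mul]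
    exact hgq
  · refine ⟨(natDegree_C_mul_le _ _).trans hD, ?_⟩
    refine fixed_minorL (O := O) G hq hf₀ hk₀ hs hk h5 hG χ hχ B b m hm hmq hinv (C (u⁻¹) * D)
      ?_ (H.comp (C ζ⁻¹ * X)) ?_
    · intro 𝔪 h𝔪
      apply hun
      intro h0
      apply h𝔪
      rw [mul_assoc, map_mul, h0, mul_zero]
    have h6 : χ (Algebra.norm k₀ (u⁻¹)) = ζ⁻¹ := by
      have h7 : χ (Algebra.norm k₀ (u⁻¹)) * χ (Algebra.norm k₀ u) = 1 := by
        rw [← map_mul, ← map_mul, inv_mul_cancel₀ hu0, map_one, map_one]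
      rw [huN, ha, map_pow, hi] at h7
      exact eq_inv_of_mul_eq_one_left h7
    rw [mul_assoc, LO_C_mul G, hH, h6]
    have h8 : ∀ H : ℂ[X], PowerSeries.rescale ζ⁻¹ (H : PowerSeries ℂ) =
        ((H.comp (C ζ⁻¹ * X) : ℂ[X]) : PowerSeries ℂ) := by
      intro H
      ext n
      rw [PowerSeries.coeff_rescale, Polynomial.coeff_coe, Polynomial.coeff_coe,
        comp_C_mul_X_coeff, mul_comm]
    rw [h8]
    congr 1
    rw [mul_comp, sub_comp, one_comp, mul_comp, C_comp, X_comp, C_mul]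
    congr 2
    rw [mul_assoc, ← mul_assoc (C ζ), ← C_mul, mul_inv_cancel₀ hζ0, C_1, one_mul]
  · show C u * (C (u⁻¹) * D) = D
    rw [← mul_assoc, ← C_mul, mul_inv_cancel₀ hu0, C_1, one_mul]

/-- **the number of the twists with a zero over some covering** -/
theorem countL_of_bound (hq : q = p ^ f₀) (hf₀ : 0 < f₀) (hk₀ : Fintype.card k₀ = q)
    (hs : 0 < s) (hk : Fintype.card k = q ^ s) (h5 : 5 ≤ q) (B : k[X]) (b : Fin (r + 1) → k[X])
    (m : Fin (r + 1) → ℕ) (hm : ∀ i, 0 < m i) (hmq : ∑ i, m i < q - 1)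
    (hinv : ∀ i : ℕ, i < ∑ l, m l → ((i : k₀) + 1) ≠ 0) (N e K : ℕ) (he : e ∣ q - 1)
    (hK : Nat.card {D : k[X] // D.natDegree ≤ N ∧ ∃ w : Fin r → k[X], w ≠ 0 ∧
      ∀ i, cart q (D * ∑ j, minor B b m i j * w j) = (w i).map (iterateFrobenius k p f₀)} ≤ K) :
    {D : k[X] | D.natDegree ≤ N ∧ VanL k₀ p q s e (D * B) b m}.ncard ≤ e * K := by
  classical
  obtain ⟨S, hSc, _, hsub⟩ := sub_of_vanL (k₀ := k₀) hq hf₀ hk₀ hs hk h5 B b m hm hmq hinv N e he
  set V := {D : k[X] | D.natDegree ≤ N ∧ ∃ w : Fin r → k[X], w ≠ 0 ∧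
    ∀ i, cart q (D * ∑ j, minor B b m i j * w j) = (w i).map (iterateFrobenius k p f₀)} with hV
  have hVf : V.Finite := (finite_natDegree_le N).subset fun D hD => hD.1
  have hVc : V.ncard ≤ K := (le_of_eq (Nat.card_coe_set_eq _).symm).trans hK
  have hfin : (⋃ u ∈ S, (fun D => C u * D) '' V).Finite :=
    S.finite_toSet.biUnion fun u _ => hVf.image _
  refine (Set.ncard_le_ncard hsub hfin).trans ?_
  have h6 : (⋃ u ∈ S, (fun D => C u * D) '' V).ncard ≤ ∑ u ∈ S, V.ncard := by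
    refine (Finset.set_ncard_biUnion_le S _).trans (Finset.sum_le_sum fun u _ => ?_)
    exact Set.ncard_image_le hVf
  refine h6.trans ?_
  rw [Finset.sum_const, smul_eq_mul]
  exact Nat.mul_le_mul hSc hVc

/-- the case of equal fields -/
theorem map_frob_id {k : Type} [Field k] [Fintype k] [CharP k p] (hq : q = p ^ f₀)
    (hk : Fintype.card k = q) (w : k[X]) : w.map (iterateFrobenius k p f₀) = w := by
  have h1 : (iterateFrobenius k p f₀ : k →+* k) = RingHom.id k := by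
    refine RingHom.ext fun x => ?_
    rw [iterateFrobenius_def, ← hq, ← hk, FiniteField.pow_card]
    rfl
  rw [h1, Polynomial.map_id]

end count

end Pool.Agent.Y709.Lay
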