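import Mathlib.NumberTheory.RamificationInertia.Galois
import Mathlib.RingTheory.Invariant.Galois
import Mathlib.RingTheory.Spectrum.Maximal.Basic
import Mathlib.FieldTheory.Minpoly.Field
import Mathlib.FieldTheory.Finite.Basic
import Pool.Agent.W313.Hyp.Irr

/-!
The points of a Galois covering of the line.
-/

set_option autoImplicit false
set_option linter.unusedSectionVars false

open Polynomial Module

namespace Pool.Agent.Y709.Lay

open Pool.Agent.W313.Hyp

/-- the residue field -/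
def RO (k : Type) {O : Type} [CommRing O] (𝔪 : MaximalSpectrum O) : Type :=
  let _ := k
  O ⧸ 𝔪.asIdeal

section defs

variable (k : Type) [Field k] {O : Type} [CommRing O] [Algebra k[X] O]

attribute [local instance] Ideal.Quotient.field MaximalSpectrum.isMaximal in
noncomputable instance fieldRO (𝔪 : MaximalSpectrum O) : Field (RO k 𝔪) :=
  inferInstanceAs (Field (O ⧸ 𝔪.asIdeal))

/-- the value of a polynomial -/
noncomputable def vO (𝔪 : MaximalSpectrum O) : k[X] →+* RO k 𝔪 :=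
  (Ideal.Quotient.mk 𝔪.asIdeal).comp (algebraMap k[X] O)

noncomputable instance algRO {k₀ : Type} [Field k₀] [Algebra k₀ k] (𝔪 : MaximalSpectrum O) :
    Algebra k₀ (RO k 𝔪) := (((vO k 𝔪).comp C).comp (algebraMap k₀ k)).toAlgebra

instance towerRO {k₀ : Type} [Field k₀] [Algebra k₀ k] (𝔪 : MaximalSpectrum O) :
    IsScalarTower k₀ k (RO k 𝔪) := IsScalarTower.of_algebraMap_eq fun _ => rfl

theorem algebraMap_RO {k₀ : Type} [Field k₀] [Algebra k₀ k] (𝔪 : MaximalSpectrum O) (a : k₀) :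
    algebraMap k₀ (RO k 𝔪) a = vO k 𝔪 (C (algebraMap k₀ k a)) := rfl

theorem vO_eq_aeval (𝔪 : MaximalSpectrum O) (g : k[X]) :
    vO k 𝔪 g = aeval (vO k 𝔪 X) g := by
  have h1 : ((aeval (vO k 𝔪 X) : k[X] →ₐ[k] RO k 𝔪) : k[X] →+* RO k 𝔪) = vO k 𝔪 := by
    apply Polynomial.ringHom_ext
    · intro a
      show aeval (vO k 𝔪 X) (C a) = _
      rw [aeval_C]
      rfl
    · show aeval (vO k 𝔪 X) X = _
      rw [aeval_X]
  exact (congrArg (fun φ : k[X] →+* RO k 𝔪 => φ g) h1).symm

theorem vO_eq_zero {𝔪 : MaximalSpectrum O} {g : k[X]} :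
    vO k 𝔪 g = 0 ↔ algebraMap k[X] O g ∈ 𝔪.asIdeal := Ideal.Quotient.eq_zero_iff_mem

end defs

section gal

variable {k : Type} [Field k] [Finite k] {O : Type} [CommRing O] [Algebra k[X] O]
  (G : Type) [Group G] [Finite G] [MulSemiringAction G O] [IsGaloisGroup G k[X] O]

include G in
theorem isIntegral_O : Algebra.IsIntegral k[X] O :=
  have := IsGaloisGroup.isInvariant (G := G) (A := k[X]) (B := O)
  Algebra.IsInvariant.isIntegral k[X] O G

include G in
theorem under_isMaximal (𝔪 : MaximalSpectrum O) : (𝔪.asIdeal.under k[X]).IsMaximal := by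
  have := isIntegral_O (k := k) (O := O) G
  have := 𝔪.isMaximal
  infer_instance

include G in
theorem finite_quot (𝔪 : MaximalSpectrum O) : Finite (k[X] ⧸ 𝔪.asIdeal.under k[X]) := by
  have hm := under_isMaximal (k := k) G 𝔪
  have hne : 𝔪.asIdeal.under k[X] ≠ ⊥ := by
    intro h
    rw [h] at hm
    exact Ring.ne_bot_of_isMaximal_of_not_isField hm (Polynomial.not_isField k) rfl
  obtain ⟨f, hf⟩ := IsPrincipalIdealRing.principal (𝔪.asIdeal.under k[X])
  have hf' : 𝔪.asIdeal.under k[X] = Ideal.span {f} := hf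
  have hf0 : f ≠ 0 := by
    rintro rfl
    apply hne
    rw [hf', Ideal.span_singleton_eq_bot]
  rw [hf']
  have h1 : Module.Finite k (AdjoinRoot f) := (AdjoinRoot.powerBasis hf0).finite
  exact Module.finite_of_finite k (M := AdjoinRoot f)

attribute [local instance] Ideal.Quotient.field in
include G in
theorem finite_RO (𝔪 : MaximalSpectrum O) : Finite (RO k 𝔪) := by
  have hm := under_isMaximal (k := k) G 𝔪
  have hm' := 𝔪.isMaximal
  have h1 := finite_quot (k := k) G 𝔪
  have h2 := isIntegral_O (k := k) (O := O) G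
  have h3 := IsGaloisGroup.commutes (G := G) (A := k[X]) (B := O)
  have h4 := IsGaloisGroup.isInvariant (G := G) (A := k[X]) (B := O)
  have h5 : Algebra.IsAlgebraic (k[X] ⧸ 𝔪.asIdeal.under k[X]) (O ⧸ 𝔪.asIdeal) := inferInstance
  have h6 : Module.Finite (k[X] ⧸ 𝔪.asIdeal.under k[X]) (O ⧸ 𝔪.asIdeal) :=
    Ideal.Quotient.finite_of_isInvariant G (𝔪.asIdeal.under k[X]) 𝔪.asIdeal
  exact Module.finite_of_finite (k[X] ⧸ 𝔪.asIdeal.under k[X]) (M := O ⧸ 𝔪.asIdeal)

include G in
theorem finiteDim_RO (𝔪 : MaximalSpectrum O) : FiniteDimensional k (RO k 𝔪) := by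
  have := finite_RO (k := k) G 𝔪
  infer_instance

/-- the point of the line below -/
noncomputable def pt (𝔪 : MaximalSpectrum O) [FiniteDimensional k (RO k 𝔪)] : MI k :=
  ⟨minpoly k (vO k 𝔪 X), minpoly.monic (IsIntegral.of_finite k _),
    minpoly.irreducible (IsIntegral.of_finite k _)⟩

omit [Finite k] in
theorem under_eq (𝔪 : MaximalSpectrum O) [FiniteDimensional k (RO k 𝔪)] :
    𝔪.asIdeal.under k[X] = Ideal.span {(pt (k := k) 𝔪).1} := by
  ext g
  rw [Ideal.mem_under, ← vO_eq_zero, vO_eq_aeval, Ideal.mem_span_singleton]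
  exact (minpoly.dvd_iff).symm

omit [Finite k] in
theorem vO_zero_iff (𝔪 : MaximalSpectrum O) [FiniteDimensional k (RO k 𝔪)] (g : k[X]) :
    vO k 𝔪 g = 0 ↔ (pt (k := k) 𝔪).1 ∣ g := by
  rw [vO_eq_aeval]
  exact (minpoly.dvd_iff).symm

omit [Finite k] in
theorem finrank_quot (P : MI k) : finrank k (k[X] ⧸ Ideal.span {P.1}) = P.1.natDegree := by
  have h2 := (AdjoinRoot.powerBasis P.2.1.ne_zero).finrank
  rw [AdjoinRoot.powerBasis_dim] at h2
  exact h2

attribute [local instance] Ideal.Quotient.field in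
include G in
/-- the degree of a point -/
theorem finrank_RO (𝔪 : MaximalSpectrum O) [FiniteDimensional k (RO k 𝔪)] :
    finrank k (RO k 𝔪) = (pt (k := k) 𝔪).1.natDegree * 𝔪.asIdeal.inertiaDeg k[X] := by
  have hm := under_isMaximal (k := k) G 𝔪
  have hm' := 𝔪.isMaximal
  rw [Ideal.inertiaDeg_eq_of_isMaximal (𝔪.asIdeal.under k[X]) 𝔪.asIdeal,
    ← finrank_quot, ← under_eq]
  let i : Algebra k (O ⧸ 𝔪.asIdeal) := algRO (k := k) (k₀ := k) 𝔪
  have htow : @IsScalarTower k (k[X] ⧸ 𝔪.asIdeal.under k[X]) (O ⧸ 𝔪.asIdeal)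
      Algebra.toSMul Algebra.toSMul Algebra.toSMul :=
    IsScalarTower.of_algebraMap_eq fun a => rfl
  exact (Module.finrank_mul_finrank k (k[X] ⧸ 𝔪.asIdeal.under k[X]) (O ⧸ 𝔪.asIdeal)).symm

include G in
/-- the number of the points above a point -/
theorem card_points (𝔪 : MaximalSpectrum O) [FiniteDimensional k (RO k 𝔪)] :
    ((Ideal.span {(pt (k := k) 𝔪).1}).primesOver O).ncard * Nat.card (𝔪.asIdeal.inertia G) *
      𝔪.asIdeal.inertiaDeg k[X] = Nat.card G := by
  have hm := under_isMaximal (k := k) G 𝔪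
  have hm' := 𝔪.isMaximal
  have h1 := finite_quot (k := k) G 𝔪
  have h2 : Finite (𝔪.asIdeal.under k[X]).ResidueField :=
    Finite.of_surjective _ (Ideal.bijective_algebraMap_quotient_residueField _).2
  have h3 := Ideal.ncard_primesOver_mul_card_inertia_mul_finrank (G := G)
    (𝔪.asIdeal.under k[X]) 𝔪.asIdeal
  rw [under_eq] at h3
  exact h3

end gal

end Pool.Agent.Y709.Lay
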