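import Mathlib.RingTheory.FiniteType
import Mathlib.RingTheory.Spectrum.Maximal.Basic
import Mathlib.LinearAlgebra.Dimension.Finrank
import Mathlib.RingTheory.Ideal.Quotient.Operations
import Mathlib.Algebra.Polynomial.Eval.Defs

/-!
Closed points of a variety over a finite field at which a given polynomial has a root.
-/

set_option autoImplicit false

open Polynomial

namespace Pool.Agent.Y709.Lay

/-- A polynomial `g` of positive degree over the coordinate ring of an affine variety of positive
dimension over a finite field has a root in the residue field of closed points of arbitrarily large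
degree outside of a hypersurface. -/
def ExistsRootPoint : Prop :=
  ∀ (k : Type) [Field k] [Finite k] (A : Type) [CommRing A] [IsDomain A] [Algebra k A]
    [Algebra.FiniteType k A], ¬ Module.Finite k A → ∀ u : A, u ≠ 0 → ∀ g : A[X],
      0 < g.natDegree → ∀ n : ℕ, ∃ c : MaximalSpectrum A, u ∉ c.asIdeal ∧
        (∃ x : A, g.eval x ∈ c.asIdeal) ∧ n ≤ Module.finrank k (A ⧸ c.asIdeal) ∧
          Module.Finite k (A ⧸ c.asIdeal)

end Pool.Agent.Y709.Lay
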